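import Pool.Agent.H639R3.K.Main

/-!
The Khintchine divergence theorem on affine subspaces: the limsup set.
-/

open MeasureTheory Set Metric

namespace Pool.Agent.H639R3.K

variable {d : ℕ} {J : Type*} [Fintype J]

/-- the condition at `q` -/
def Good (α : J → ℝ) (L : J → Fin d → ℝ) (ψ : ℕ → ℝ) (q : ℕ) (y : Fin d → ℝ) : Prop :=
  (∀ k, |(q : ℝ) * y k - round ((q : ℝ) * y k)| < ψ q) ∧
    ∀ j, |(q : ℝ) * (α j + ∑ k, L j k * y k) - round ((q : ℝ) * (α j + ∑ k, L j k * y k))| < ψ q

/-- points of the balls satisfy the condition -/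
theorem good_of_mem {α : J → ℝ} {L : J → Fin d → ℝ} {ψ : ℕ → ℝ} (hψ : ∀ k, 0 < ψ k)
    (hanti : Antitone ψ) {x0 : Fin d → ℝ} {r : ℝ} {Q : ℕ} {σ η Λ : ℝ} (hΛ0 : 0 ≤ Λ)
    (hΛ : ∀ j, ∑ k, |L j k| ≤ Λ) (hη : η = 1 / (4 * (1 + Λ)))
    {u : Finset (Fin d → ℝ)} {q : (Fin d → ℝ) → ℕ} {p : (Fin d → ℝ) → Fin d → ℤ}
    (h : IsLev α L x0 r Q σ (ψ Q) u q p) {x y : Fin d → ℝ} (hx : x ∈ u)
    (hy : y ∈ bal ψ η σ q p x) :
    Good α L ψ (q x) y ∧ ∀ k, |(q x : ℝ) * y k - round ((q x : ℝ) * y k)| ≤ σ := by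
  have hq := h.qpos hx
  have hηpos : 0 < η := by rw [hη]; positivity
  have hψq := hψ (q x)
  have hηle : η * ψ (q x) ≤ ψ (q x) / 4 := by
    have : η ≤ 1 / 4 := by
      rw [hη]; apply one_div_le_one_div_of_le (by norm_num); linarith
    nlinarith
  have hΛη : Λ * (η * ψ (q x)) ≤ ψ (q x) / 4 := by
    have : Λ * η ≤ 1 / 4 := by
      rw [hη, mul_one_div, div_le_div_iff₀ (by positivity) (by norm_num)]
      linarith
    nlinarith
  have hmin : ∀ k, |(q x : ℝ) * y k - p x k| ≤ min (η * ψ (q x)) σ := by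
    intro k
    have h1 : |y k - cen q p x k| ≤ rad ψ η σ q x := by
      rw [← Real.dist_eq]
      exact (dist_le_pi_dist y _ k).trans (mem_closedBall.1 hy)
    unfold rad cen at h1
    rw [le_div_iff₀ hq, ← abs_of_pos hq, ← abs_mul, abs_of_pos hq] at h1
    refine le_trans (le_of_eq ?_) h1
    congr 1
    field_simp
  have h1 : ∀ k, |(q x : ℝ) * y k - p x k| ≤ η * ψ (q x) := fun k =>
    (hmin k).trans (min_le_left _ _)
  refine ⟨⟨fun k => ?_, fun j => ?_⟩, fun k => ?_⟩
  · refine lt_of_le_of_lt (round_le _ (p x k)) ?_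
    have := h1 k
    linarith
  · obtain ⟨s, hs⟩ := h.hs x hx j
    refine lt_of_le_of_lt (round_le _ s) ?_
    have e1 : (q x : ℝ) * (α j + ∑ k, L j k * y k) - s
        = ((q x : ℝ) * α j + ∑ k, L j k * p x k - s)
          + ∑ k, L j k * ((q x : ℝ) * y k - p x k) := by
      have e2 : ∑ k, L j k * ((q x : ℝ) * y k - p x k)
          = (q x : ℝ) * ∑ k, L j k * y k - ∑ k, L j k * p x k := by
        rw [Finset.mul_sum, ← Finset.sum_sub_distrib]
        exact Finset.sum_congr rfl fun k _ => by ring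
      rw [e2]; ring
    have e3 : |∑ k, L j k * ((q x : ℝ) * y k - p x k)| ≤ Λ * (η * ψ (q x)) := by
      calc |∑ k, L j k * ((q x : ℝ) * y k - p x k)|
          ≤ ∑ k, |L j k * ((q x : ℝ) * y k - p x k)| := Finset.abs_sum_le_sum_abs _ _
        _ ≤ ∑ k, |L j k| * (η * ψ (q x)) := by
            apply Finset.sum_le_sum
            intro k _
            rw [abs_mul]
            exact mul_le_mul_of_nonneg_left (h1 k) (abs_nonneg _)
        _ = (∑ k, |L j k|) * (η * ψ (q x)) := by rw [Finset.sum_mul]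
        _ ≤ Λ * (η * ψ (q x)) := by
            apply mul_le_mul_of_nonneg_right (hΛ j)
            positivity
    rw [e1]
    have e4 : ψ Q ≤ ψ (q x) := hanti (h.hqQ x hx)
    calc _ ≤ |(q x : ℝ) * α j + ∑ k, L j k * p x k - s|
          + |∑ k, L j k * ((q x : ℝ) * y k - p x k)| := abs_add_le _ _
      _ < ψ (q x) := by linarith
  · exact (round_le _ (p x k)).trans ((hmin k).trans (min_le_right _ _))

/-- the theorem for positive functions which are not too large -/
theorem ae_good_of_le (hd : 0 < d) (α : J → ℝ) (L : J → Fin d → ℝ) {ψ : ℕ → ℝ}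
    (hψ : ∀ k, 0 < ψ k) (hanti : Antitone ψ) (hψ1 : ∀ k, ψ k ≤ 1)
    (hale : ∀ t, av (d + Fintype.card J) ψ t ≤ 1)
    (hdiv : ¬ Summable (av (d + Fintype.card J) ψ)) :
    ∀ᵐ y ∂(volume : Measure (Fin d → ℝ)), ∃ᶠ q : ℕ in Filter.atTop, Good α L ψ q y := by
  classical
  set m := Fintype.card J with hm
  set a := av (d + m) ψ with ha
  set σ := sg d m ψ with hσ
  have ha0 : ∀ t, 0 < a t := fun t => (par hd m hψ hale t).apos
  obtain ⟨β, hβ1, hβ2, hβm⟩ := exists_beta m
  obtain ⟨P, hP, hpeak⟩ := exists_peaks a ha0 hale hdiv hβ1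
  obtain ⟨g, hg0, hg1, hg⟩ := exists_ratio hd hψ hanti hβ1 hβ2 hP
  set Λ := ∑ j, ∑ k, |L j k| with hΛdef
  have hΛ0 : 0 ≤ Λ := Finset.sum_nonneg fun j _ => Finset.sum_nonneg fun k _ => abs_nonneg _
  have hΛ : ∀ j, ∑ k, |L j k| ≤ Λ := fun j =>
    Finset.single_le_sum (f := fun j => ∑ k, |L j k|)
      (fun j _ => Finset.sum_nonneg fun k _ => abs_nonneg _) (Finset.mem_univ j)
  set η : ℝ := 1 / (4 * (1 + Λ)) with hη
  have hηpos : 0 < η := by positivity
  have hη1 : η ≤ 1 := by
    rw [hη, div_le_one (by positivity)]; linarith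
  have hC := one_le_C0 d m
  have hg1' : 0 < 1 - g := by linarith
  set c := 1 / (30 ^ d * (2 * ((4 ^ d + 1) + (1 + C0 d m / η ^ d) * (1 - g)⁻¹))) with hc
  have hcpos : 0 < c := by positivity
  -- the exceptional set
  set k0 : Fin d := ⟨0, hd⟩ with hk0
  set S : Set (Fin d → ℝ) := {y | (¬ ∃ᶠ q : ℕ in Filter.atTop, Good α L ψ q y) ∧
    Irrational (y k0)} with hS
  have hSnull : volume S = 0 := by
    apply null_of_proportion S (η := c / 2 ^ d) (by positivity)
    intro x0 r' hr'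
    -- work in the ball of radius r'
    obtain ⟨N1, hN1⟩ := sg_tendsto hd hψ hβ1 hβm hP (ε := min 1 (r' / 6)) (by positivity)
    have hex : ∀ t, t ∈ P ∧ N1 ≤ t → ∃ u q p, IsLev α L x0 r' (2 ^ t) (σ t) (ψ (2 ^ t)) u q p := by
      rintro t ⟨htP, htN⟩
      have h1 := hN1 t htN htP
      have h2 : σ t ≤ 1 := h1.trans (min_le_left _ _)
      have h3 : σ t ≤ r' / 6 := h1.trans (min_le_right _ _)
      have hpar := par hd m hψ hale t
      exact exists_lev α L x0 hr' hpar.σpos h2 (hψ _) (hψ1 _) (by linarith) hpar.σeq.ge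
    choose! u q p hlev using hex
    set E : ℕ → Set (Fin d → ℝ) := fun t => ⋃ x ∈ u t, bal ψ η (σ t) (q t) (p t) x with hE
    set U : ℕ → Set (Fin d → ℝ) := fun N => ⋃ t, ⋃ (_ : t ∈ P ∧ N1 + N ≤ t), E t with hU
    have hEm : ∀ t, MeasurableSet (E t) := fun t =>
      Finset.measurableSet_biUnion _ fun x _ => measurableSet_closedBall
    have hUm : ∀ N, MeasurableSet (U N) := fun N =>
      MeasurableSet.iUnion fun t => MeasurableSet.iUnion fun _ => hEm t
    have hEsub : ∀ t, t ∈ P ∧ N1 ≤ t → E t ⊆ closedBall x0 (2 * r') := by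
      intro t ht
      simp only [hE, iUnion_subset_iff]
      intro x hx
      have hl := hlev t ht
      have hσt := (par hd m hψ hale t).σpos
      refine (hl.bal_subset hσt hx).trans ?_
      apply closedBall_subset_closedBall'
      have h1 := mem_closedBall.1 (hl.hu x hx)
      have h2 := hl.hr
      have h3 : σ t / q t x ≤ σ t := div_le_self hσt.le (by exact_mod_cast hl.hq1 x hx)
      linarith
    have hUsub : ∀ N, U N ⊆ closedBall x0 (2 * r') := by
      intro N
      simp only [hU, iUnion_subset_iff]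
      intro t ht
      exact hEsub t ⟨ht.1, by omega⟩
    have hUge : ∀ N, c * (2 * r') ^ d ≤ volume.real (U N) := by
      intro N
      obtain ⟨T, hT1, hT2⟩ := hpeak (N1 + N)
      have h1 := union_ge hd hψ hanti hale hηpos hη1 hg0 hg1 hr' hg (fun t ht => (hT1 t ht).1)
        (fun t ht => hlev t ⟨(hT1 t ht).1, by have := (hT1 t ht).2; omega⟩) hT2
      refine h1.trans (measureReal_mono ?_ (ne_top_of_le_ne_top
        (volume_closedBall_ne_top x0 (2 * r')) (measure_mono (hUsub N))))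
      intro y hy
      simp only [mem_iUnion, exists_prop] at hy
      obtain ⟨i, hi, hyi⟩ := hy
      obtain ⟨hiT, hiu⟩ := Finset.mem_sigma.1 hi
      simp only [hU, hE, mem_iUnion, exists_prop]
      exact ⟨i.1, hT1 i.1 hiT, i.2, hiu, hyi⟩
    have hanti' : Antitone U := by
      intro N N' hNN x hx
      simp only [hU, mem_iUnion, exists_prop] at hx ⊢
      obtain ⟨t, ht, hxt⟩ := hx
      exact ⟨t, ⟨ht.1, by omega⟩, hxt⟩
    have hlim := tendsto_measure_iInter_atTop (μ := (volume : Measure (Fin d → ℝ))) (s := U)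
      (fun N => (hUm N).nullMeasurableSet) hanti' ⟨0, ne_top_of_le_ne_top
        (volume_closedBall_ne_top x0 (2 * r')) (measure_mono (hUsub 0))⟩
    have hfin2 : volume (⋂ N, U N) ≠ ⊤ := ne_top_of_le_ne_top
        (volume_closedBall_ne_top x0 (2 * r')) (measure_mono ((iInter_subset _ 0).trans (hUsub 0)))
    have hge : ENNReal.ofReal (c * (2 * r') ^ d) ≤ volume (⋂ N, U N) := by
      apply ge_of_tendsto' hlim
      intro N
      exact ENNReal.ofReal_le_of_le_toReal (hUge N)
    refine ⟨⋂ N, U N, MeasurableSet.iInter hUm, (iInter_subset _ 0).trans (hUsub 0), ?_, ?_⟩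
    · rintro y hy ⟨hnot, hirr⟩
      rw [Filter.not_frequently, Filter.eventually_atTop] at hnot
      obtain ⟨N2, hN2⟩ := hnot
      -- distances to integers of the small multiples
      obtain ⟨ε, hε, hεle⟩ : ∃ ε : ℝ, 0 < ε ∧ ∀ n : ℕ, 1 ≤ n → n < N2 →
          ε ≤ |(n : ℝ) * y k0 - round ((n : ℝ) * y k0)| := by
        have hpos : ∀ n : ℕ, 1 ≤ n → 0 < |(n : ℝ) * y k0 - round ((n : ℝ) * y k0)| := by
          intro n hn
          rw [abs_pos, sub_ne_zero]
          intro heq
          have h1 : Irrational ((n : ℝ) * y k0) := hirr.natCast_mul (by omega)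
          exact h1 ⟨(round ((n : ℝ) * y k0) : ℤ), by push_cast; exact heq.symm⟩
        clear hN2
        induction N2 with
        | zero => exact ⟨1, one_pos, fun n _ h => absurd h (by omega)⟩
        | succ N2 ih =>
          obtain ⟨ε, hε, hle⟩ := ih
          by_cases hN : 1 ≤ N2
          · refine ⟨min ε |(N2 : ℝ) * y k0 - round ((N2 : ℝ) * y k0)|,
              lt_min hε (hpos N2 hN), fun n hn hnN => ?_⟩
            rcases Nat.lt_succ_iff_lt_or_eq.1 hnN with h | h
            · exact (min_le_left _ _).trans (hle n hn h)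
            · subst h; exact min_le_right _ _
          · exact ⟨ε, hε, fun n hn hnN => absurd hnN (by omega)⟩
      obtain ⟨N3, hN3⟩ := sg_tendsto hd hψ hβ1 hβm hP (ε := ε / 2) (by positivity)
      have hyU := mem_iInter.1 hy N3
      simp only [hU, hE, mem_iUnion, exists_prop] at hyU
      obtain ⟨t, ⟨htP, htN⟩, x, hx, hyx⟩ := hyU
      have hl := hlev t ⟨htP, by omega⟩
      obtain ⟨h1, h2⟩ := good_of_mem hψ hanti hΛ0 hΛ hη hl hx hyx
      have h3 : q t x < N2 := by
        by_contra hcon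
        exact hN2 _ (not_lt.1 hcon) h1
      have h4 := hεle _ (hl.hq1 x hx) h3
      have h5 := h2 k0
      have h6 := hN3 t (by omega) htP
      linarith
    · have h1 := (ENNReal.ofReal_le_iff_le_toReal hfin2).1 hge
      have h2 : c / 2 ^ d * (2 * r') ^ d ≤ c * (2 * r') ^ d := by
        apply mul_le_mul_of_nonneg_right _ (by positivity)
        apply div_le_self hcpos.le
        exact one_le_pow₀ (by norm_num)
      exact h2.trans h1
  -- rational first coordinate
  have hrat : ∀ᵐ y ∂(volume : Measure (Fin d → ℝ)), Irrational (y k0) := by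
    rw [ae_iff]
    have h1 : {y : Fin d → ℝ | ¬ Irrational (y k0)}
        = ⋃ ρ : ℚ, {y : Fin d → ℝ | y k0 = (ρ : ℝ)} := by
      ext y
      simp only [Irrational, mem_ofPred_eq, not_not, mem_range, mem_iUnion]
      constructor
      · rintro ⟨ρ, h⟩; exact ⟨ρ, h.symm⟩
      · rintro ⟨ρ, h⟩; exact ⟨ρ, h.symm⟩
    rw [h1, measure_iUnion_null_iff]
    intro ρ
    exact Measure.pi_hyperplane (fun _ : Fin d => (volume : Measure ℝ)) k0 (ρ : ℝ)
  have hS' : ∀ᵐ y ∂(volume : Measure (Fin d → ℝ)), y ∉ S := by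
    rw [ae_iff]
    simpa using hSnull
  filter_upwards [hrat, hS'] with y h1 h2
  by_contra hcon
  exact h2 ⟨hcon, h1⟩

end Pool.Agent.H639R3.K
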