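import Pool.Agent.H639R3.K.Final

/-!
The Khintchine divergence theorem on affine subspaces, for all non-increasing functions.
-/

set_option linter.unusedSectionVars false

open MeasureTheory Set Metric

namespace Pool.Agent.H639R3.K

variable {d : ℕ} {J : Type*} [Fintype J]

theorem Good.mono {α : J → ℝ} {L : J → Fin d → ℝ} {ψ ψ' : ℕ → ℝ} {q : ℕ} {y : Fin d → ℝ}
    (h : Good α L ψ' q y) (hle : ψ' q ≤ ψ q) : Good α L ψ q y :=
  ⟨fun k => lt_of_lt_of_le (h.1 k) hle, fun j => lt_of_lt_of_le (h.2 j) hle⟩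

theorem ae_good (hd : 0 < d) (α : J → ℝ) (L : J → Fin d → ℝ) {ψ : ℕ → ℝ}
    (hψ0 : ∀ k, 0 ≤ ψ k) (hanti : Antitone ψ)
    (hdiv : ¬ Summable (fun q : ℕ => ψ q ^ (d + Fintype.card J))) :
    ∀ᵐ y ∂(volume : Measure (Fin d → ℝ)), ∃ᶠ q : ℕ in Filter.atTop, Good α L ψ q y := by
  set n := d + Fintype.card J with hn
  have hn0 : n ≠ 0 := by omega
  -- positivity
  have hψ : ∀ k, 0 < ψ k := by
    intro k
    rcases (hψ0 k).lt_or_eq with h | h
    · exact h
    · exfalso
      apply hdiv
      apply summable_of_ne_finset_zero (s := Finset.range k)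
      intro q hq
      have h1 : k ≤ q := by simpa using hq
      have h2 : ψ q = 0 := le_antisymm ((hanti h1).trans h.symm.le) (hψ0 q)
      rw [h2, zero_pow hn0]
  -- truncation
  set τ : ℕ → ℝ := fun q => ((q : ℝ) + 1)⁻¹ ^ (((n : ℕ) : ℝ)⁻¹) with hτ
  have hτpow : ∀ q, τ q ^ n = ((q : ℝ) + 1)⁻¹ := by
    intro q
    simp only [hτ]
    exact Real.rpow_inv_natCast_pow (by positivity) hn0
  have hτpos : ∀ q, 0 < τ q := fun q => by simp only [hτ]; positivity
  have hτ1 : ∀ q, τ q ≤ 1 := by
    intro q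
    rw [← pow_le_pow_iff_left₀ (hτpos q).le zero_le_one hn0, hτpow, one_pow]
    apply inv_le_one_of_one_le₀
    have : (0 : ℝ) ≤ q := Nat.cast_nonneg q
    linarith
  have hτanti : Antitone τ := by
    intro a b hab
    rw [← pow_le_pow_iff_left₀ (hτpos b).le (hτpos a).le hn0, hτpow, hτpow]
    have : (a : ℝ) ≤ b := by exact_mod_cast hab
    gcongr
  set φ : ℕ → ℝ := fun q => min (ψ q) (τ q) with hφ
  have hφpos : ∀ q, 0 < φ q := fun q => lt_min (hψ q) (hτpos q)
  have hφanti : Antitone φ := hanti.min hτanti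
  have hφ1 : ∀ q, φ q ≤ 1 := fun q => (min_le_right _ _).trans (hτ1 q)
  have hale : ∀ t, av n φ t ≤ 1 := by
    intro t
    unfold av
    have h1 : φ (2 ^ t) ^ n ≤ τ (2 ^ t) ^ n :=
      pow_le_pow_left₀ (hφpos _).le (min_le_right _ _) n
    rw [hτpow] at h1
    push_cast at h1
    calc 2 ^ t * φ (2 ^ t) ^ n ≤ 2 ^ t * ((2 : ℝ) ^ t + 1)⁻¹ := by gcongr
      _ ≤ 1 := by
        rw [mul_inv_le_iff₀ (by positivity)]
        linarith
  have hdiv' : ¬ Summable (av n φ) := by
    intro hs
    apply hdiv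
    have hcond := summable_condensed_iff_of_nonneg (f := fun q => ψ q ^ n)
      (fun q => pow_nonneg (hψ0 q) n)
      (fun a b _ hab => pow_le_pow_left₀ (hψ0 b) (hanti hab) n)
    rw [← hcond]
    have hlim := hs.tendsto_atTop_zero
    obtain ⟨N, hN⟩ := Filter.eventually_atTop.1 (hlim.eventually_lt_const
      (show (0 : ℝ) < 1 / 2 by norm_num))
    rw [← summable_nat_add_iff N] at hs ⊢
    refine hs.congr fun t => ?_
    have h1 := hN (t + N) (by omega)
    unfold av at h1 ⊢
    simp only [hφ] at h1 ⊢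
    rcases min_choice (ψ (2 ^ (t + N))) (τ (2 ^ (t + N))) with h2 | h2
    · rw [h2]
    · exfalso
      rw [h2, hτpow] at h1
      push_cast at h1
      have h3 : (1 : ℝ) ≤ 2 ^ (t + N) := one_le_pow₀ one_le_two
      rw [← div_eq_mul_inv, div_lt_div_iff₀ (by positivity) (by norm_num)] at h1
      linarith
  have hmain := ae_good_of_le hd α L hφpos hφanti hφ1 hale hdiv'
  filter_upwards [hmain] with y hy
  exact hy.mono fun q hq => Good.mono hq (min_le_left _ _)

/-- linear algebra: a graph presentation of an affine subspace -/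
theorem exists_graph {n : ℕ} (A : (Fin d → ℝ) →ₗ[ℝ] (Fin n → ℝ)) (hA : Function.Injective A) :
    ∃ (e : Fin d → Fin n) (T : (Fin d → ℝ) ≃ₗ[ℝ] (Fin d → ℝ)), Function.Injective e ∧
      ∀ t k, T t k = A t (e k) := by
  classical
  set f : Fin n → Module.Dual ℝ (Fin d → ℝ) := fun i => (LinearMap.proj i).comp A with hf
  obtain ⟨κ, s, hs, hspan, hli⟩ := exists_linearIndependent' ℝ f
  -- a vector killed by the chosen functionals is zero
  have hker : ∀ t : Fin d → ℝ, (∀ i, f (s i) t = 0) → t = 0 := by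
    intro t ht
    have h1 : ∀ φ ∈ Submodule.span ℝ (range (f ∘ s)), φ t = 0 := by
      intro φ hφ
      induction hφ using Submodule.span_induction with
      | mem x hx =>
        obtain ⟨i, rfl⟩ := hx
        exact ht i
      | zero => simp
      | add x y _ _ hx hy => simp [hx, hy]
      | smul c x _ hx => simp [hx]
    rw [hspan] at h1
    have h2 : A t = 0 := by
      ext i
      exact h1 (f i) (Submodule.subset_span (mem_range_self i))
    exact hA (by rw [h2, map_zero])
  have : Finite κ := Finite.of_injective s hs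
  have : Fintype κ := Fintype.ofFinite κ
  set G : (Fin d → ℝ) →ₗ[ℝ] (κ → ℝ) := LinearMap.pi fun i => f (s i) with hG
  have hGinj : Function.Injective G := by
    rw [← LinearMap.ker_eq_bot, LinearMap.ker_eq_bot']
    intro t ht
    exact hker t fun i => congrFun ht i
  have hcard1 : d ≤ Fintype.card κ := by
    have := LinearMap.finrank_le_finrank_of_injective hGinj
    simpa using this
  have hcard2 : Fintype.card κ ≤ d := by
    have h1 := hli.fintype_card_le_finrank
    rw [Subspace.dual_finrank_eq] at h1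
    simpa using h1
  have hcard : Fintype.card κ = Fintype.card (Fin d) := by
    rw [Fintype.card_fin]; omega
  have ε : Fin d ≃ κ := (Fintype.equivOfCardEq hcard).symm
  set T0 : (Fin d → ℝ) →ₗ[ℝ] (Fin d → ℝ) := LinearMap.pi fun k => f (s (ε k)) with hT0
  have hT0inj : Function.Injective T0 := by
    rw [← LinearMap.ker_eq_bot, LinearMap.ker_eq_bot']
    intro t ht
    apply hker
    intro i
    have := congrFun ht (ε.symm i)
    simpa [hT0] using this
  refine ⟨fun k => s (ε k), LinearEquiv.ofInjectiveEndo T0 hT0inj, hs.comp ε.injective, ?_⟩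
  intro t k
  rfl

end Pool.Agent.H639R3.K
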