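import Pool.Agent.H639R3.K.Second

/-!
Rational points near an affine subspace, at one level.
-/

open MeasureTheory Set Metric

namespace Pool.Agent.H639R3.K

variable {d : ℕ} {J : Type*} [Fintype J]

/-- index of the cell of length `1 / M` which contains the fractional part -/
noncomputable def cell (M : ℕ) (hM : 0 < M) (y : ℝ) : Fin M :=
  ⟨⌊(M : ℝ) * Int.fract y⌋₊, by
    have h1 := Int.fract_nonneg y
    have h2 := Int.fract_lt_one y
    have h3 : (0 : ℝ) < M := by exact_mod_cast hM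
    rw [Nat.floor_lt (by positivity)]
    nlinarith⟩

theorem abs_fract_sub_lt {M : ℕ} {hM : 0 < M} {y y' : ℝ} (h : cell M hM y = cell M hM y') :
    |Int.fract y - Int.fract y'| < 1 / M := by
  have h3 : (0 : ℝ) < M := by exact_mod_cast hM
  have h4 : ⌊(M : ℝ) * Int.fract y⌋₊ = ⌊(M : ℝ) * Int.fract y'⌋₊ := congrArg Fin.val h
  have a1 := Nat.floor_le (show 0 ≤ (M : ℝ) * Int.fract y from
    mul_nonneg h3.le (Int.fract_nonneg y))
  have a2 := Nat.lt_floor_add_one ((M : ℝ) * Int.fract y)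
  have b1 := Nat.floor_le (show 0 ≤ (M : ℝ) * Int.fract y' from
    mul_nonneg h3.le (Int.fract_nonneg y'))
  have b2 := Nat.lt_floor_add_one ((M : ℝ) * Int.fract y')
  rw [h4] at a1 a2
  rw [lt_div_iff₀ h3, ← abs_of_pos h3, ← abs_mul, abs_lt]
  constructor <;> nlinarith

/-- Dirichlet's theorem at rational points near an affine subspace -/
theorem dirichlet (α : J → ℝ) (L : J → Fin d → ℝ) (x : Fin d → ℝ) {M1 M2 Q : ℕ}
    (h1 : 0 < M1) (h2 : 0 < M2) (h : M1 ^ d * M2 ^ Fintype.card J ≤ Q) :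
    ∃ (q : ℕ) (p : Fin d → ℤ), 1 ≤ q ∧ q ≤ Q ∧ (∀ k, |(q : ℝ) * x k - p k| < 1 / M1) ∧
      ∀ j, ∃ s : ℤ, |(q : ℝ) * α j + ∑ k, L j k * p k - s| < 1 / M2 := by
  classical
  set v : ℕ → J → ℝ := fun q j => (q : ℝ) * α j + ∑ k, L j k * (⌊(q : ℝ) * x k⌋ : ℝ) with hv
  set f : Fin (Q + 1) → (Fin d → Fin M1) × (J → Fin M2) := fun q =>
    (fun k => cell M1 h1 (((q : ℕ) : ℝ) * x k), fun j => cell M2 h2 (v q j)) with hf
  have hcard : Fintype.card ((Fin d → Fin M1) × (J → Fin M2)) < Fintype.card (Fin (Q + 1)) := by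
    rw [Fintype.card_prod, Fintype.card_fun, Fintype.card_fun, Fintype.card_fin, Fintype.card_fin,
      Fintype.card_fin, Fintype.card_fin]
    omega
  obtain ⟨a, b, hab, hfab⟩ := Fintype.exists_ne_map_eq_of_card_lt f hcard
  -- the statement for an ordered pair
  have key : ∀ a b : Fin (Q + 1), a < b → f a = f b →
      ∃ (q : ℕ) (p : Fin d → ℤ), 1 ≤ q ∧ q ≤ Q ∧ (∀ k, |(q : ℝ) * x k - p k| < 1 / M1) ∧
      ∀ j, ∃ s : ℤ, |(q : ℝ) * α j + ∑ k, L j k * p k - s| < 1 / M2 := by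
    intro a b hlt hfab
    have hlt' : (a : ℕ) < (b : ℕ) := hlt
    have hb := b.2
    have hcast : (((b : ℕ) - (a : ℕ) : ℕ) : ℝ) = (b : ℕ) - (a : ℕ) := by
      rw [Nat.cast_sub hlt'.le]
    refine ⟨(b : ℕ) - (a : ℕ), fun k => ⌊((b : ℕ) : ℝ) * x k⌋ - ⌊((a : ℕ) : ℝ) * x k⌋,
      by omega, by omega, ?_, ?_⟩
    · intro k
      have e1 := congrFun (congrArg Prod.fst hfab) k
      simp only [hf] at e1
      have e2 := abs_fract_sub_lt e1
      rw [abs_sub_comm] at e2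
      refine lt_of_eq_of_lt ?_ e2
      rw [hcast]
      push_cast
      rw [Int.fract, Int.fract]
      congr 1
      ring
    · intro j
      have e1 := congrFun (congrArg Prod.snd hfab) j
      simp only [hf] at e1
      have e2 := abs_fract_sub_lt e1
      rw [abs_sub_comm] at e2
      refine ⟨⌊v b j⌋ - ⌊v a j⌋, lt_of_eq_of_lt ?_ e2⟩
      rw [hcast]
      push_cast
      rw [Int.fract, Int.fract]
      congr 1
      have e3 : ∑ k, L j k * ((⌊((b : ℕ) : ℝ) * x k⌋ : ℝ) - ⌊((a : ℕ) : ℝ) * x k⌋)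
          = ∑ k, L j k * (⌊((b : ℕ) : ℝ) * x k⌋ : ℝ) - ∑ k, L j k * (⌊((a : ℕ) : ℝ) * x k⌋ : ℝ) := by
        rw [← Finset.sum_sub_distrib]
        exact Finset.sum_congr rfl fun k _ => by ring
      rw [e3]
      simp only [hv]
      ring
  rcases lt_or_gt_of_ne hab with h | h
  · exact key a b h hfab
  · exact key b a h hfab.symm

/-- the constant of Dirichlet's theorem -/
noncomputable def C0 (d m : ℕ) : ℝ := 2 ^ d * 8 ^ m

theorem one_le_C0 (d m : ℕ) : 1 ≤ C0 d m := by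
  unfold C0
  have h1 : (1 : ℝ) ≤ 2 ^ d := one_le_pow₀ (by norm_num)
  have h2 : (1 : ℝ) ≤ 8 ^ m := one_le_pow₀ (by norm_num)
  nlinarith

theorem dirichlet' (α : J → ℝ) (L : J → Fin d → ℝ) (x : Fin d → ℝ) {Q : ℕ} {σ D : ℝ}
    (hσ0 : 0 < σ) (hσ1 : σ ≤ 1) (hD0 : 0 < D) (hD1 : D ≤ 1)
    (h : C0 d (Fintype.card J) ≤ σ ^ d * D ^ Fintype.card J * Q) :
    ∃ (q : ℕ) (p : Fin d → ℤ), 1 ≤ q ∧ q ≤ Q ∧ (∀ k, |(q : ℝ) * x k - p k| ≤ σ) ∧
      ∀ j, ∃ s : ℤ, |(q : ℝ) * α j + ∑ k, L j k * p k - s| ≤ D / 4 := by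
  have hM1 : 0 < ⌈1 / σ⌉₊ := Nat.ceil_pos.2 (by positivity)
  have hM2 : 0 < ⌈4 / D⌉₊ := Nat.ceil_pos.2 (by positivity)
  have b1 : (⌈1 / σ⌉₊ : ℝ) ≤ 2 / σ := by
    have h1 := Nat.ceil_lt_add_one (show 0 ≤ 1 / σ by positivity)
    have h2 : 1 ≤ 1 / σ := by rw [le_div_iff₀ hσ0]; linarith
    have h3 : 2 / σ = 1 / σ + 1 / σ := by ring
    linarith
  have b2 : (⌈4 / D⌉₊ : ℝ) ≤ 8 / D := by
    have h1 := Nat.ceil_lt_add_one (show 0 ≤ 4 / D by positivity)
    have h2 : 1 ≤ 4 / D := by rw [le_div_iff₀ hD0]; linarith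
    have h3 : 8 / D = 4 / D + 4 / D := by ring
    linarith
  have hle : ⌈1 / σ⌉₊ ^ d * ⌈4 / D⌉₊ ^ Fintype.card J ≤ Q := by
    have h1 : ((⌈1 / σ⌉₊ ^ d * ⌈4 / D⌉₊ ^ Fintype.card J : ℕ) : ℝ) ≤ Q := by
      push_cast
      calc (⌈1 / σ⌉₊ : ℝ) ^ d * (⌈4 / D⌉₊ : ℝ) ^ Fintype.card J
          ≤ (2 / σ) ^ d * (8 / D) ^ Fintype.card J := by gcongr
        _ = C0 d (Fintype.card J) / (σ ^ d * D ^ Fintype.card J) := by
            unfold C0; rw [div_pow, div_pow]; field_simp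
        _ ≤ Q := by
            rw [div_le_iff₀ (by positivity)]; linarith
    exact_mod_cast h1
  obtain ⟨q, p, h1, h2, h3, h4⟩ := dirichlet α L x hM1 hM2 hle
  refine ⟨q, p, h1, h2, fun k => ?_, fun j => ?_⟩
  · refine (h3 k).le.trans ?_
    rw [div_le_iff₀ (by exact_mod_cast hM1)]
    have := Nat.le_ceil (1 / σ)
    rw [div_le_iff₀ hσ0] at this
    linarith
  · obtain ⟨s, hs⟩ := h4 j
    refine ⟨s, hs.le.trans ?_⟩
    rw [div_le_iff₀ (by exact_mod_cast hM2)]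
    have := Nat.le_ceil (4 / D)
    rw [div_le_iff₀ hD0] at this
    linarith

/-- the data at one level -/
structure IsLev (α : J → ℝ) (L : J → Fin d → ℝ) (x0 : Fin d → ℝ) (r : ℝ) (Q : ℕ) (σ D : ℝ)
    (u : Finset (Fin d → ℝ)) (q : (Fin d → ℝ) → ℕ) (p : (Fin d → ℝ) → Fin d → ℤ) : Prop where
  hq1 : ∀ x ∈ u, 1 ≤ q x
  hqQ : ∀ x ∈ u, q x ≤ Q
  hp : ∀ x ∈ u, ∀ k, |(q x : ℝ) * x k - p x k| ≤ σ
  hs : ∀ x ∈ u, ∀ j, ∃ s : ℤ, |(q x : ℝ) * α j + ∑ k, L j k * p x k - s| ≤ D / 4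
  hdisj : (u : Set (Fin d → ℝ)).PairwiseDisjoint fun x => closedBall x (6 * (σ / q x))
  hu : ∀ x ∈ u, x ∈ closedBall x0 r
  hr : 6 * σ ≤ r
  hlow : (2 * r) ^ d ≤ 30 ^ d * ∑ x ∈ u, (2 * (σ / q x)) ^ d

theorem exists_lev (α : J → ℝ) (L : J → Fin d → ℝ) (x0 : Fin d → ℝ) {r : ℝ} (hr : 0 < r)
    {Q : ℕ} {σ D : ℝ} (hσ0 : 0 < σ) (hσ1 : σ ≤ 1) (hD0 : 0 < D) (hD1 : D ≤ 1)
    (hσr : 6 * σ ≤ r) (h : C0 d (Fintype.card J) ≤ σ ^ d * D ^ Fintype.card J * Q) :
    ∃ u q p, IsLev α L x0 r Q σ D u q p := by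
  classical
  choose q p h1 h2 h3 h4 using fun x => dirichlet' α L x hσ0 hσ1 hD0 hD1 h
  have hqpos : ∀ x, (0 : ℝ) < q x := fun x => by exact_mod_cast h1 x
  have hq1 : ∀ x, (1 : ℝ) ≤ q x := fun x => by exact_mod_cast h1 x
  have hrad : ∀ x, 0 < σ / q x := fun x => div_pos hσ0 (hqpos x)
  have hradle : ∀ x, σ / q x ≤ σ := fun x => div_le_self hσ0.le (hq1 x)
  obtain ⟨v, hvB, hvdisj, hvcov⟩ := Vitali.exists_disjoint_subfamily_covering_enlargement_closedBall
    (closedBall x0 r) (fun x => x) (fun x => 6 * (σ / q x)) (6 * σ)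
    (fun x _ => by have := hradle x; linarith) 5 (by norm_num)
  have hsubball : ∀ x ∈ v, closedBall x (6 * (σ / q x)) ⊆ closedBall x0 (2 * r) := by
    intro x hx
    apply closedBall_subset_closedBall'
    have := mem_closedBall.1 (hvB hx)
    have := hradle x
    linarith
  have hQpos : (0 : ℝ) < Q := by
    have := h1 x0
    have := h2 x0
    exact_mod_cast (by omega : 0 < Q)
  have hvfin : v.Finite := by
    have e1 := Measure.finite_const_le_meas_of_disjoint_iUnion (volume : Measure (Fin d → ℝ))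
      (ε := ENNReal.ofReal ((2 * (6 * (σ / Q))) ^ d)) (by rw [ENNReal.ofReal_pos]; positivity)
      (As := fun x : v => closedBall (x : Fin d → ℝ) (6 * (σ / q x)))
      (fun x => measurableSet_closedBall)
      (fun x y hxy => hvdisj x.2 y.2 (fun h => hxy (Subtype.ext h)))
      (by
        apply ne_top_of_le_ne_top (b := volume (closedBall x0 (2 * r)))
        · rw [Real.volume_pi_closedBall _ (by positivity)]; exact ENNReal.ofReal_ne_top
        · apply measure_mono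
          exact iUnion_subset fun x => hsubball x x.2)
    have e2 : {x : v | ENNReal.ofReal ((2 * (6 * (σ / Q))) ^ d)
        ≤ volume (closedBall (x : Fin d → ℝ) (6 * (σ / q x)))} = univ := by
      ext x
      simp only [mem_ofPred_eq, mem_univ, iff_true]
      have e3 := hrad (x : Fin d → ℝ)
      rw [Real.volume_pi_closedBall _ (by positivity), Fintype.card_fin]
      apply ENNReal.ofReal_le_ofReal
      have e4 : σ / Q ≤ σ / q (x : Fin d → ℝ) := by
        have := hqpos (x : Fin d → ℝ)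
        have e5 : (q (x : Fin d → ℝ) : ℝ) ≤ Q := by exact_mod_cast h2 (x : Fin d → ℝ)
        gcongr
      gcongr
    rw [e2] at e1
    have e3 : Finite v := Set.finite_univ_iff.1 e1
    exact Set.toFinite v
  set u := hvfin.toFinset with hu
  have hmem : ∀ x, x ∈ u ↔ x ∈ v := fun x => hvfin.mem_toFinset
  refine ⟨u, q, p, fun x _ => h1 x, fun x _ => h2 x, fun x _ => h3 x, fun x _ => h4 x, ?_,
    fun x hx => hvB ((hmem x).1 hx), hσr, ?_⟩
  · intro x hx y hy hxy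
    exact hvdisj ((hmem x).1 hx) ((hmem y).1 hy) hxy
  · have hcov : closedBall x0 r ⊆ ⋃ x ∈ u, closedBall x (5 * (6 * (σ / q x))) := by
      intro y hy
      obtain ⟨b, hb, hsub⟩ := hvcov y hy
      simp only [mem_iUnion]
      have := hrad y
      exact ⟨b, (hmem b).2 hb, hsub (mem_closedBall_self (by positivity))⟩
    have h5 := (measure_mono (μ := (volume : Measure (Fin d → ℝ))) hcov).trans
      (measure_biUnion_finset_le _ _)
    have h6 : ∀ x ∈ u, volume (closedBall x (5 * (6 * (σ / q x))))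
        = ENNReal.ofReal (30 ^ d * (2 * (σ / q x)) ^ d) := by
      intro x _
      have := hrad x
      rw [Real.volume_pi_closedBall _ (by positivity), Fintype.card_fin, ← mul_pow]
      congr 2; ring
    have h7 : ∀ x ∈ u, 0 ≤ 30 ^ d * (2 * (σ / q x)) ^ d := fun x _ => by
      have := hrad x
      positivity
    rw [Finset.sum_congr rfl h6, ← ENNReal.ofReal_sum_of_nonneg h7,
      Real.volume_pi_closedBall _ hr.le, Fintype.card_fin,
      ENNReal.ofReal_le_ofReal_iff (Finset.sum_nonneg h7), ← Finset.mul_sum] at h5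
    exact h5

end Pool.Agent.H639R3.K
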