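import Pool.Agent.H639R3.K.Scale

/-!
The Khintchine divergence theorem on affine subspaces.
-/

open MeasureTheory Set Metric

namespace Pool.Agent.H639R3.K

variable {d : ℕ} {J : Type*} [Fintype J]

/-- second moment estimate for finitely many levels -/
theorem union_ge (hd : 0 < d) {α : J → ℝ} {L : J → Fin d → ℝ} {ψ : ℕ → ℝ}
    (hψ : ∀ k, 0 < ψ k) (hanti : Antitone ψ)
    (hale : ∀ t, av (d + Fintype.card J) ψ t ≤ 1) {η : ℝ} (hη : 0 < η) (hη1 : η ≤ 1)
    {g : ℝ} (hg0 : 0 < g) (hg1 : g < 1) {x0 : Fin d → ℝ} {r : ℝ} (hr : 0 < r) {P : Set ℕ}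
    (hg : ∀ t ∈ P, ∀ t', t ≤ t' → (ψ (2 ^ t') / ψ (2 ^ t)) ^ d ≤ g ^ (t' - t))
    {T : Finset ℕ} (hTP : ∀ t ∈ T, t ∈ P)
    {u : ℕ → Finset (Fin d → ℝ)} {q : ℕ → (Fin d → ℝ) → ℕ} {p : ℕ → (Fin d → ℝ) → Fin d → ℤ}
    (hlev : ∀ t ∈ T, IsLev α L x0 r (2 ^ t) (sg d (Fintype.card J) ψ t) (ψ (2 ^ t))
      (u t) (q t) (p t))
    (hM : 1 ≤ ∑ t ∈ T, av (d + Fintype.card J) ψ t) :
    1 / (30 ^ d * (2 * ((4 ^ d + 1) + (1 + C0 d (Fintype.card J) / η ^ d) * (1 - g)⁻¹)))
      * (2 * r) ^ d ≤ volume.real (⋃ i ∈ T.sigma u,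
        bal ψ η (sg d (Fintype.card J) ψ i.1) (q i.1) (p i.1) i.2) := by
  classical
  set m := Fintype.card J with hm
  set a := av (d + m) ψ with ha
  set σ := sg d m ψ with hσ
  have hC := one_le_C0 d m
  set K1 := C0 d m / η ^ d with hK1
  have hK1pos : 0 < K1 := by positivity
  have hg1' : 0 < 1 - g := by linarith
  set K := (4 ^ d + 1) + (1 + K1) * (1 - g)⁻¹ with hK
  have hKpos : 0 < K := by positivity
  set M := ∑ t ∈ T, a t with hMdef
  have hMpos : 0 < M := by linarith
  have hpar : ∀ t, Par d m ψ (2 ^ t) (σ t) (a t) := fun t => par hd m hψ hale t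
  set I := T.sigma u with hI
  set B : (Σ _ : ℕ, (Fin d → ℝ)) → Set (Fin d → ℝ) := fun i =>
    bal ψ η (σ i.1) (q i.1) (p i.1) i.2 with hB
  set k : (Σ _ : ℕ, (Fin d → ℝ)) → ℝ := fun i => kap ψ η (σ i.1) (a i.1) (q i.1) i.2 with hk
  have hk0 : ∀ i, 0 ≤ k i := fun i => kap_nonneg hψ hη (hpar i.1).σpos (hpar i.1).apos i.2
  have hmemI : ∀ i, i ∈ I ↔ i.1 ∈ T ∧ i.2 ∈ u i.1 := fun i => Finset.mem_sigma
  set S1 := ∑ i ∈ I, k i * volume.real (B i) with hS1
  set S2 := ∑ i ∈ I, ∑ j ∈ I, k i * k j * volume.real (B i ∩ B j) with hS2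
  -- first moment
  have hS1eq : S1 = ∑ t ∈ T, a t * ∑ x ∈ u t, (2 * (σ t / q t x)) ^ d := by
    rw [hS1, hI, Finset.sum_sigma]
    apply Finset.sum_congr rfl
    intro t ht
    rw [Finset.mul_sum]
    apply Finset.sum_congr rfl
    intro x hx
    exact (hlev t ht).kap_mul hψ hη (hpar t).σpos hx
  have hS1ge : M * ((2 * r) ^ d / 30 ^ d) ≤ S1 := by
    rw [hS1eq, hMdef, Finset.sum_mul]
    apply Finset.sum_le_sum
    intro t ht
    apply mul_le_mul_of_nonneg_left _ (hpar t).apos.le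
    rw [div_le_iff₀ (by positivity)]
    have := (hlev t ht).hlow
    linarith
  have hS1pos : 0 < S1 := lt_of_lt_of_le (by positivity) hS1ge
  -- later levels
  have hlater : ∀ i ∈ I, ∑ j ∈ I, (if i.1 ≤ j.1 then k j * volume.real (B i ∩ B j) else 0)
      ≤ K * M * volume.real (B i) := by
    rintro ⟨t, x⟩ hi
    obtain ⟨ht, hx⟩ := (hmemI _).1 hi
    simp only at ht hx
    have hV0 : 0 ≤ volume.real (B ⟨t, x⟩) := measureReal_nonneg
    rw [hI, Finset.sum_sigma]
    have hlevel : ∀ t' ∈ T, ∑ x' ∈ u t', (if t ≤ t' then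
        k ⟨t', x'⟩ * volume.real (B ⟨t, x⟩ ∩ B ⟨t', x'⟩) else 0)
        ≤ ((4 ^ d + 1) * a t' + (1 + K1) * (if t ≤ t' then g ^ (t' - t) else 0))
          * volume.real (B ⟨t, x⟩) := by
      intro t' ht'
      have hat' := (hpar t').apos
      by_cases htt : t ≤ t'
      · simp only [if_pos htt]
        rcases Nat.eq_or_lt_of_le htt with heq | hlt
        · subst heq
          have h1 := (hlev t ht).self_bound (hpar t) hψ hanti hη hx
          refine h1.trans ?_
          apply mul_le_mul_of_nonneg_right _ hV0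
          rw [Nat.sub_self, pow_zero, mul_one]
          have : 0 < (4 : ℝ) ^ d := by positivity
          nlinarith
        · have h1 := (hlev t ht).pair_bound hd (hpar t) (hlev t' ht') (hpar t') hψ hanti hη hη1 hx
          refine h1.trans ?_
          apply mul_le_mul_of_nonneg_right _ hV0
          have h2 := hg t (hTP t ht) t' htt
          have h3 : K1 * (ψ (2 ^ t') / ψ (2 ^ t)) ^ d ≤ K1 * g ^ (t' - t) := by gcongr
          have h4 : 0 < g ^ (t' - t) := by positivity
          rw [← hK1]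
          nlinarith
      · simp only [if_neg htt, Finset.sum_const_zero, mul_zero, add_zero]
        positivity
    refine (Finset.sum_le_sum hlevel).trans ?_
    rw [← Finset.sum_mul, Finset.sum_add_distrib, ← Finset.mul_sum, ← Finset.mul_sum, ← hMdef]
    apply mul_le_mul_of_nonneg_right _ hV0
    have hgeo : ∑ t' ∈ T, (if t ≤ t' then g ^ (t' - t) else 0) ≤ (1 - g)⁻¹ := by
      rw [← Finset.sum_filter]
      apply sum_pow_le hg0.le hg1
      intro y hy z hz h
      have h1 := (Finset.mem_filter.1 hy).2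
      have h2 := (Finset.mem_filter.1 hz).2
      simp only at h
      omega
    have h5 : (1 + K1) * ∑ t' ∈ T, (if t ≤ t' then g ^ (t' - t) else 0)
        ≤ (1 + K1) * (1 - g)⁻¹ := by gcongr
    have h6 : 0 < (1 + K1) * (1 - g)⁻¹ := by positivity
    rw [hK]
    nlinarith
  -- second moment
  have hS2le : S2 ≤ 2 * (K * M) * S1 := by
    have h1 : S2 ≤ ∑ i ∈ I, ∑ j ∈ I, ((if i.1 ≤ j.1 then k i * k j * volume.real (B i ∩ B j) else 0)
        + (if j.1 ≤ i.1 then k i * k j * volume.real (B i ∩ B j) else 0)) := by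
      apply Finset.sum_le_sum
      intro i _
      apply Finset.sum_le_sum
      intro j _
      have h0 : 0 ≤ k i * k j * volume.real (B i ∩ B j) :=
        mul_nonneg (mul_nonneg (hk0 i) (hk0 j)) measureReal_nonneg
      rcases le_total i.1 j.1 with h | h
      · rw [if_pos h]
        split_ifs <;> linarith
      · rw [if_pos h]
        split_ifs <;> linarith
    have h2 : ∑ i ∈ I, ∑ j ∈ I, (if i.1 ≤ j.1 then k i * k j * volume.real (B i ∩ B j) else 0)
        ≤ K * M * S1 := by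
      rw [hS1, Finset.mul_sum]
      apply Finset.sum_le_sum
      intro i hi
      have h3 : ∑ j ∈ I, (if i.1 ≤ j.1 then k i * k j * volume.real (B i ∩ B j) else 0)
          = k i * ∑ j ∈ I, (if i.1 ≤ j.1 then k j * volume.real (B i ∩ B j) else 0) := by
        rw [Finset.mul_sum]
        apply Finset.sum_congr rfl
        intro j _
        split_ifs
        · ring
        · ring
      rw [h3]
      calc k i * ∑ j ∈ I, (if i.1 ≤ j.1 then k j * volume.real (B i ∩ B j) else 0)
          ≤ k i * (K * M * volume.real (B i)) :=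
            mul_le_mul_of_nonneg_left (hlater i hi) (hk0 i)
        _ = _ := by ring
    have h3 : ∑ i ∈ I, ∑ j ∈ I, (if j.1 ≤ i.1 then k i * k j * volume.real (B i ∩ B j) else 0)
        ≤ K * M * S1 := by
      rw [Finset.sum_comm]
      refine le_trans (le_of_eq ?_) h2
      apply Finset.sum_congr rfl
      intro i _
      apply Finset.sum_congr rfl
      intro j _
      rw [inter_comm, mul_comm (k j)]
    simp only [Finset.sum_add_distrib] at h1
    linarith
  have hwsm := weighted_second_moment (volume : Measure (Fin d → ℝ)) I B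
    (fun i _ => measurableSet_closedBall) (fun i _ => volume_closedBall_ne_top _ _) k
    (1 / (2 * (K * M)))
  rw [← hS1, ← hS2] at hwsm
  refine le_trans ?_ hwsm
  have hKM : 0 < K * M := by positivity
  have h1 : (1 / (2 * (K * M))) ^ 2 * S2 ≤ (1 / (2 * (K * M))) ^ 2 * (2 * (K * M) * S1) := by
    gcongr
  have h2 : 2 * (1 / (2 * (K * M))) * S1 - (1 / (2 * (K * M))) ^ 2 * (2 * (K * M) * S1)
      = S1 / (2 * (K * M)) := by
    field_simp
    ring
  have h3 : 1 / (30 ^ d * (2 * K)) * (2 * r) ^ d ≤ S1 / (2 * (K * M)) := by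
    rw [le_div_iff₀ (by positivity)]
    refine le_trans (le_of_eq ?_) hS1ge
    field_simp
  linarith

end Pool.Agent.H639R3.K
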