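import Pool.Agent.H639R3.K.Lev

/-!
Overlap estimates between two levels.
-/

set_option linter.unusedSectionVars false

open MeasureTheory Set Metric

namespace Pool.Agent.H639R3.K

variable {d : ℕ} {J : Type*} [Fintype J]

/-- the rational point attached to `x` -/
noncomputable def cen (q : (Fin d → ℝ) → ℕ) (p : (Fin d → ℝ) → Fin d → ℤ) (x : Fin d → ℝ) :
    Fin d → ℝ := fun k => (p x k : ℝ) / q x

/-- the radius of the ball around it -/
noncomputable def rad (ψ : ℕ → ℝ) (η σ : ℝ) (q : (Fin d → ℝ) → ℕ) (x : Fin d → ℝ) : ℝ :=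
  min (η * ψ (q x)) σ / q x

/-- the weight -/
noncomputable def kap (ψ : ℕ → ℝ) (η σ a : ℝ) (q : (Fin d → ℝ) → ℕ) (x : Fin d → ℝ) : ℝ :=
  a * σ ^ d / (min (η * ψ (q x)) σ) ^ d

/-- the ball -/
noncomputable def bal (ψ : ℕ → ℝ) (η σ : ℝ) (q : (Fin d → ℝ) → ℕ) (p : (Fin d → ℝ) → Fin d → ℤ)
    (x : Fin d → ℝ) : Set (Fin d → ℝ) := closedBall (cen q p x) (rad ψ η σ q x)

/-- relations between the parameters of a level -/
structure Par (d m : ℕ) (ψ : ℕ → ℝ) (Q : ℕ) (σ a : ℝ) : Prop where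
  σpos : 0 < σ
  σeq : σ ^ d * ψ Q ^ m * Q = C0 d m
  aeq : a = Q * ψ Q ^ (d + m)
  ale : a ≤ 1
  apos : 0 < a

section

variable {α : J → ℝ} {L : J → Fin d → ℝ} {x0 : Fin d → ℝ} {r : ℝ} {Q : ℕ} {σ D a η : ℝ}
  {u : Finset (Fin d → ℝ)} {q : (Fin d → ℝ) → ℕ} {p : (Fin d → ℝ) → Fin d → ℤ} {ψ : ℕ → ℝ}

theorem Par.mul_eq {m : ℕ} (P : Par d m ψ Q σ a) : a * σ ^ d = C0 d m * ψ Q ^ d := by
  rw [P.aeq, ← P.σeq, pow_add]; ring

theorem Par.psi_le {m : ℕ} (hd : 0 < d) (hψ : ∀ k, 0 < ψ k) (P : Par d m ψ Q σ a) : ψ Q ≤ σ := by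
  have h1 := P.mul_eq
  have h2 := one_le_C0 d m
  have h3 := P.ale
  have h4 := P.σpos
  have h5 := hψ Q
  have h6 : ψ Q ^ d ≤ σ ^ d := by
    have h7 : 0 < σ ^ d := by positivity
    have h8 : 0 < ψ Q ^ d := by positivity
    nlinarith
  exact (pow_le_pow_iff_left₀ h5.le h4.le hd.ne').1 h6

theorem volume_closedBall_real (c : Fin d → ℝ) {R : ℝ} (hR : 0 ≤ R) :
    volume.real (closedBall c R) = (2 * R) ^ d := by
  rw [Measure.real, Real.volume_pi_closedBall _ hR, Fintype.card_fin,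
    ENNReal.toReal_ofReal (by positivity)]

theorem volume_closedBall_ne_top (c : Fin d → ℝ) (R : ℝ) : volume (closedBall c R) ≠ ⊤ :=
  (isCompact_closedBall c R).measure_lt_top.ne

theorem IsLev.qpos (h : IsLev α L x0 r Q σ D u q p) {x : Fin d → ℝ} (hx : x ∈ u) :
    (0 : ℝ) < q x := by exact_mod_cast h.hq1 x hx

theorem IsLev.dist_cen (h : IsLev α L x0 r Q σ D u q p) (hσ : 0 < σ) {x : Fin d → ℝ}
    (hx : x ∈ u) : dist x (cen q p x) ≤ σ / q x := by
  have hq := h.qpos hx
  rw [dist_pi_le_iff (by positivity)]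
  intro k
  rw [Real.dist_eq, le_div_iff₀ hq, ← abs_of_pos hq, ← abs_mul]
  refine le_trans (le_of_eq ?_) (h.hp x hx k)
  congr 1
  unfold cen
  field_simp

theorem IsLev.min_pos (hψ : ∀ k, 0 < ψ k) (hη : 0 < η) (hσ : 0 < σ) (x : Fin d → ℝ) :
    0 < min (η * ψ (q x)) σ := lt_min (mul_pos hη (hψ _)) hσ

theorem IsLev.rad_pos (h : IsLev α L x0 r Q σ D u q p) (hψ : ∀ k, 0 < ψ k) (hη : 0 < η)
    (hσ : 0 < σ) {x : Fin d → ℝ} (hx : x ∈ u) : 0 < rad ψ η σ q x :=
  div_pos (IsLev.min_pos hψ hη hσ x) (h.qpos hx)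

theorem IsLev.rad_le (h : IsLev α L x0 r Q σ D u q p) {x : Fin d → ℝ} (hx : x ∈ u) :
    rad ψ η σ q x ≤ σ / q x := by
  have hq := h.qpos hx
  unfold rad
  exact div_le_div_of_nonneg_right (min_le_right _ _) hq.le

theorem kap_nonneg (hψ : ∀ k, 0 < ψ k) (hη : 0 < η) (hσ : 0 < σ) (ha : 0 < a)
    (x : Fin d → ℝ) : 0 ≤ kap ψ η σ a q x := by
  have := IsLev.min_pos (q := q) hψ hη hσ x
  unfold kap
  positivity

/-- the weight is normalised -/
theorem IsLev.kap_mul (h : IsLev α L x0 r Q σ D u q p) (hψ : ∀ k, 0 < ψ k) (hη : 0 < η)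
    (hσ : 0 < σ) {x : Fin d → ℝ} (hx : x ∈ u) :
    kap ψ η σ a q x * volume.real (bal ψ η σ q p x) = a * (2 * (σ / q x)) ^ d := by
  have h1 := IsLev.min_pos (q := q) hψ hη hσ x
  have h2 := h.qpos hx
  rw [bal, volume_closedBall_real _ (h.rad_pos hψ hη hσ hx).le]
  unfold kap rad
  rw [mul_pow, mul_pow, div_pow, div_pow]
  field_simp

theorem IsLev.bal_subset (h : IsLev α L x0 r Q σ D u q p) (hσ : 0 < σ) {x : Fin d → ℝ}
    (hx : x ∈ u) : bal ψ η σ q p x ⊆ closedBall x (2 * (σ / q x)) := by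
  apply closedBall_subset_closedBall'
  have h1 := h.dist_cen hσ hx
  have h2 := h.rad_le (ψ := ψ) (η := η) hx
  rw [dist_comm]
  linarith

/-- bound for the weight -/
theorem IsLev.kap_le {m : ℕ} (_h : IsLev α L x0 r Q σ D u q p) (P : Par d m ψ Q σ a)
    (hψ : ∀ k, 0 < ψ k) (hanti : Antitone ψ) (hη : 0 < η)
    {x : Fin d → ℝ} {Q₀ : ℕ} (hqx : q x ≤ Q₀) :
    kap ψ η σ a q x ≤ a + C0 d m / η ^ d * (ψ Q / ψ Q₀) ^ d := by
  have hσ := P.σpos
  have ha := P.apos
  have h0 := hψ (q x)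
  have h1 := hψ Q₀
  have h2 := hψ Q
  have hC := one_le_C0 d m
  have h3 : ψ Q₀ ≤ ψ (q x) := hanti hqx
  unfold kap
  rcases le_total (η * ψ (q x)) σ with hle | hle
  · rw [min_eq_left hle, P.mul_eq]
    have h4 : C0 d m * ψ Q ^ d / (η * ψ (q x)) ^ d ≤ C0 d m / η ^ d * (ψ Q / ψ Q₀) ^ d := by
      rw [mul_pow, div_pow, div_mul_div_comm]
      gcongr
    linarith
  · rw [min_eq_right hle]
    have h4 : a * σ ^ d / σ ^ d = a := by field_simp
    rw [h4]
    have : 0 ≤ C0 d m / η ^ d * (ψ Q / ψ Q₀) ^ d := by positivity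
    linarith

/-- overlaps inside one level -/
theorem IsLev.self_bound {m : ℕ} (h : IsLev α L x0 r Q σ D u q p) (P : Par d m ψ Q σ a)
    (hψ : ∀ k, 0 < ψ k) (hanti : Antitone ψ) (hη : 0 < η) {x : Fin d → ℝ} (hx : x ∈ u) :
    ∑ x' ∈ u, kap ψ η σ a q x' * volume.real (bal ψ η σ q p x ∩ bal ψ η σ q p x')
      ≤ (a + C0 d m / η ^ d) * volume.real (bal ψ η σ q p x) := by
  classical
  have hσ := P.σpos
  have hz : ∀ x' ∈ u, x' ≠ x →
      kap ψ η σ a q x' * volume.real (bal ψ η σ q p x ∩ bal ψ η σ q p x') = 0 := by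
    intro x' hx' hne
    have h1 := h.hdisj hx hx' (Ne.symm hne)
    have h2 : bal ψ η σ q p x ∩ bal ψ η σ q p x' = ∅ := by
      rw [← Set.disjoint_iff_inter_eq_empty]
      refine h1.mono ((h.bal_subset hσ hx).trans ?_) ((h.bal_subset hσ hx').trans ?_)
      · apply closedBall_subset_closedBall
        have := h.qpos hx
        have : 0 < σ / q x := by positivity
        linarith
      · apply closedBall_subset_closedBall
        have := h.qpos hx'
        have : 0 < σ / q x' := by positivity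
        linarith
    rw [h2, measureReal_empty, mul_zero]
  rw [Finset.sum_eq_single x hz (fun hn => absurd hx hn), inter_self]
  apply mul_le_mul_of_nonneg_right _ measureReal_nonneg
  refine (h.kap_le P hψ hanti hη (h.hqQ x hx)).trans ?_
  rw [div_self (hψ Q).ne', one_pow, mul_one]

/-- overlaps between two different levels -/
theorem IsLev.pair_bound {m : ℕ} (hd : 0 < d) {Q' : ℕ} {σ' D' a' : ℝ}
    {u' : Finset (Fin d → ℝ)} {q' : (Fin d → ℝ) → ℕ} {p' : (Fin d → ℝ) → Fin d → ℤ}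
    (h : IsLev α L x0 r Q σ D u q p) (P : Par d m ψ Q σ a)
    (h' : IsLev α L x0 r Q' σ' D' u' q' p') (P' : Par d m ψ Q' σ' a')
    (hψ : ∀ k, 0 < ψ k) (hanti : Antitone ψ) (hη : 0 < η) (hη1 : η ≤ 1)
    {x : Fin d → ℝ} (hx : x ∈ u) :
    ∑ x' ∈ u', kap ψ η σ' a' q' x' * volume.real (bal ψ η σ q p x ∩ bal ψ η σ' q' p' x')
      ≤ ((4 ^ d + 1) * a' + C0 d m / η ^ d * (ψ Q' / ψ Q) ^ d)
        * volume.real (bal ψ η σ q p x) := by
  classical
  have hσ := P.σpos
  have hσ' := P'.σpos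
  have ha' := P'.apos
  have hC := one_le_C0 d m
  have hψQ := hψ Q
  have hψQ' := hψ Q'
  set R := rad ψ η σ q x with hR
  have hR0 : 0 < R := h.rad_pos hψ hη hσ hx
  set c := cen q p x with hc
  set V := volume.real (bal ψ η σ q p x) with hV
  have hVeq : V = (2 * R) ^ d := by rw [hV, bal, volume_closedBall_real _ hR0.le]
  have hV0 : 0 ≤ V := measureReal_nonneg
  have hρ : ∀ x' ∈ u', 0 < σ' / q' x' := fun x' hx' => div_pos hσ' (h'.qpos hx')
  -- geometry of a nonempty intersection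
  have hgeo : ∀ x' ∈ u', (bal ψ η σ q p x ∩ bal ψ η σ' q' p' x').Nonempty →
      dist x' c ≤ R + 2 * (σ' / q' x') := by
    rintro x' hx' ⟨w, hw1, hw2⟩
    have e1 : dist w c ≤ R := mem_closedBall.1 hw1
    have e2 := mem_closedBall.1 (h'.bal_subset hσ' hx' hw2)
    calc dist x' c ≤ dist x' w + dist w c := dist_triangle _ _ _
      _ ≤ R + 2 * (σ' / q' x') := by rw [dist_comm x' w]; linarith
  set g : (Fin d → ℝ) → ℝ := fun x' =>
    kap ψ η σ' a' q' x' * volume.real (bal ψ η σ q p x ∩ bal ψ η σ' q' p' x') with hg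
  have hkn : ∀ x', 0 ≤ kap ψ η σ' a' q' x' := fun x' => kap_nonneg hψ hη hσ' ha' x'
  have hg0 : ∀ x', 0 ≤ g x' := fun x' => mul_nonneg (hkn x') measureReal_nonneg
  have hgempty : ∀ x', ¬ (bal ψ η σ q p x ∩ bal ψ η σ' q' p' x').Nonempty → g x' = 0 := by
    intro x' hne
    simp only [hg]
    rw [not_nonempty_iff_eq_empty.1 hne, measureReal_empty, mul_zero]
  -- first bound for a term
  have hg1 : ∀ x' ∈ u', g x' ≤ a' * (2 * (σ' / q' x')) ^ d := by
    intro x' hx'
    rw [← h'.kap_mul hψ hη hσ' hx']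
    exact mul_le_mul_of_nonneg_left (measureReal_mono inter_subset_right
      (volume_closedBall_ne_top _ _)) (hkn x')
  -- second bound for a term
  have hg2 : ∀ x' ∈ u', g x' ≤ kap ψ η σ' a' q' x' * V := by
    intro x' hx'
    exact mul_le_mul_of_nonneg_left (measureReal_mono inter_subset_left
      (volume_closedBall_ne_top _ _)) (hkn x')
  set ne : (Fin d → ℝ) → Prop := fun x' => (bal ψ η σ q p x ∩ bal ψ η σ' q' p' x').Nonempty
    with hne
  have hsplit : ∑ x' ∈ u', g x' = ∑ x' ∈ u'.filter (fun x' => ne x' ∧ σ' / q' x' ≤ R), g x'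
      + ∑ x' ∈ u'.filter (fun x' => ne x' ∧ ¬ σ' / q' x' ≤ R), g x' := by
    have e1 : ∑ x' ∈ u', g x' = ∑ x' ∈ u'.filter ne, g x' := by
      rw [Finset.sum_filter]
      apply Finset.sum_congr rfl
      intro x' _
      by_cases hx' : ne x'
      · rw [if_pos hx']
      · rw [if_neg hx', hgempty x' hx']
    rw [e1, ← Finset.sum_filter_add_sum_filter_not (u'.filter ne) (fun x' => σ' / q' x' ≤ R),
      Finset.filter_filter, Finset.filter_filter]
  -- small cells
  have hA : ∑ x' ∈ u'.filter (fun x' => ne x' ∧ σ' / q' x' ≤ R), g x' ≤ 4 ^ d * a' * V := by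
    set Y := u'.filter (fun x' => ne x' ∧ σ' / q' x' ≤ R) with hY
    have hYu : ∀ x' ∈ Y, x' ∈ u' := fun x' hx' => (Finset.mem_filter.1 hx').1
    have e1 : ∑ x' ∈ Y, g x' ≤ ∑ x' ∈ Y, a' * (2 * (σ' / q' x')) ^ d :=
      Finset.sum_le_sum fun x' hx' => hg1 x' (hYu x' hx')
    refine e1.trans ?_
    rw [← Finset.mul_sum]
    have e2 : ∑ x' ∈ Y, (2 * (σ' / q' x')) ^ d
        = volume.real (⋃ x' ∈ Y, closedBall x' (σ' / q' x')) := by
      have d1 : (Y : Set (Fin d → ℝ)).PairwiseDisjoint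
          fun x' => closedBall x' (σ' / q' x') := by
        intro y hy z hz hyz
        refine (h'.hdisj (hYu y hy) (hYu z hz) hyz).mono ?_ ?_
        · apply closedBall_subset_closedBall
          have := hρ y (hYu y hy)
          linarith
        · apply closedBall_subset_closedBall
          have := hρ z (hYu z hz)
          linarith
      rw [measureReal_biUnion_finset d1 (fun y _ => measurableSet_closedBall)
        (fun y _ => volume_closedBall_ne_top _ _)]
      apply Finset.sum_congr rfl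
      intro x' hx'
      rw [volume_closedBall_real _ (hρ x' (hYu x' hx')).le]
    have e3 : volume.real (⋃ x' ∈ Y, closedBall x' (σ' / q' x')) ≤ 4 ^ d * V := by
      have e4 : (⋃ x' ∈ Y, closedBall x' (σ' / q' x')) ⊆ closedBall c (4 * R) := by
        simp only [iUnion_subset_iff]
        intro x' hx'
        obtain ⟨e5, e6, e7⟩ := Finset.mem_filter.1 hx'
        apply closedBall_subset_closedBall'
        have := hgeo x' e5 e6
        linarith
      refine (measureReal_mono e4 (volume_closedBall_ne_top _ _)).trans ?_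
      rw [volume_closedBall_real _ (by positivity), hVeq, ← mul_pow]
      apply le_of_eq
      congr 1; ring
    rw [e2]
    calc a' * volume.real (⋃ x' ∈ Y, closedBall x' (σ' / q' x')) ≤ a' * (4 ^ d * V) := by gcongr
      _ = _ := by ring
  -- large cells
  have hB : ∑ x' ∈ u'.filter (fun x' => ne x' ∧ ¬ σ' / q' x' ≤ R), g x'
      ≤ (a' + C0 d m / η ^ d * (ψ Q' / ψ Q) ^ d) * V := by
    set Y := u'.filter (fun x' => ne x' ∧ ¬ σ' / q' x' ≤ R) with hY
    have hcard : Y.card ≤ 1 := by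
      rw [Finset.card_le_one]
      intro y hy z hz
      by_contra hyz
      obtain ⟨y1, y2, y3⟩ := Finset.mem_filter.1 hy
      obtain ⟨z1, z2, z3⟩ := Finset.mem_filter.1 hz
      push Not at y3 z3
      have hdis := h'.hdisj y1 z1 hyz
      have ey := hgeo y y1 y2
      have ez := hgeo z z1 z2
      rw [Function.onFun, Set.disjoint_left] at hdis
      apply hdis (a := c)
      · rw [mem_closedBall, dist_comm]; linarith
      · rw [mem_closedBall, dist_comm]; linarith
    have hterm : ∀ x' ∈ Y, g x' ≤ (a' + C0 d m / η ^ d * (ψ Q' / ψ Q) ^ d) * V := by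
      intro x' hx'
      obtain ⟨hx1, _, _⟩ := Finset.mem_filter.1 hx'
      rcases le_or_gt (q x) (q' x') with hqq | hqq
      · -- the denominator of the second point is larger
        refine (hg1 x' hx1).trans ?_
        have hqp := h.qpos hx
        have e1 : a' * (2 * (σ' / q' x')) ^ d ≤ 2 ^ d * (C0 d m * ψ Q' ^ d) / (q x : ℝ) ^ d := by
          have e2 : (q x : ℝ) ≤ q' x' := by exact_mod_cast hqq
          calc a' * (2 * (σ' / q' x')) ^ d ≤ a' * (2 * (σ' / q x)) ^ d := by gcongr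
            _ = 2 ^ d * (a' * σ' ^ d) / (q x : ℝ) ^ d := by rw [mul_pow, div_pow]; ring
            _ = _ := by rw [P'.mul_eq]
        have e3 : 2 ^ d * (η * ψ Q) ^ d / (q x : ℝ) ^ d ≤ V := by
          have e4 : η * ψ Q ≤ min (η * ψ (q x)) σ := by
            apply le_min
            · exact mul_le_mul_of_nonneg_left (hanti (h.hqQ x hx)) hη.le
            · have := P.psi_le hd hψ
              nlinarith
          have e9 : V = 2 ^ d * (min (η * ψ (q x)) σ) ^ d / (q x : ℝ) ^ d := by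
            rw [hVeq, hR, rad]
            rw [mul_pow 2, div_pow]
            ring
          rw [e9]
          gcongr
        have e5 : 2 ^ d * (C0 d m * ψ Q' ^ d) / (q x : ℝ) ^ d
            = C0 d m / η ^ d * (ψ Q' / ψ Q) ^ d * (2 ^ d * (η * ψ Q) ^ d / (q x : ℝ) ^ d) := by
          rw [mul_pow, div_pow]; field_simp
        have e6 : 0 ≤ C0 d m / η ^ d * (ψ Q' / ψ Q) ^ d := by positivity
        have e7 := mul_le_mul_of_nonneg_left e3 e6
        rw [← e5] at e7
        have e8 : 0 ≤ a' * V := by positivity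
        linarith
      · -- the denominator of the second point is smaller
        refine (hg2 x' hx1).trans ?_
        apply mul_le_mul_of_nonneg_right _ hV0
        exact h'.kap_le P' hψ hanti hη (hqq.le.trans (h.hqQ x hx))
    have hbn : 0 ≤ (a' + C0 d m / η ^ d * (ψ Q' / ψ Q) ^ d) * V := by positivity
    refine (Finset.sum_le_card_nsmul Y g _ hterm).trans ?_
    rw [nsmul_eq_mul]
    have : (Y.card : ℝ) ≤ 1 := by exact_mod_cast hcard
    nlinarith
  rw [hsplit]
  calc _ ≤ 4 ^ d * a' * V + (a' + C0 d m / η ^ d * (ψ Q' / ψ Q) ^ d) * V := add_le_add hA hB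
    _ = _ := by ring

end

end Pool.Agent.H639R3.K
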