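import Mathlib

/-!
Peaks of a bounded positive sequence with divergent sum.
-/

namespace Pool.Agent.H639R3.K

theorem sum_pow_le {b : ℝ} (hb0 : 0 ≤ b) (hb1 : b < 1) (S : Finset ℕ) (φ : ℕ → ℕ)
    (hφ : Set.InjOn φ S) : ∑ s ∈ S, b ^ φ s ≤ (1 - b)⁻¹ := by
  classical
  have h1 : ∑ s ∈ S, b ^ φ s = ∑ k ∈ S.image φ, b ^ k := by
    rw [Finset.sum_image hφ]
  rw [h1, ← tsum_geometric_of_lt_one hb0 hb1]
  exact (summable_geometric_of_lt_one hb0 hb1).sum_le_tsum _ fun i _ => by positivity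

theorem sum_pow_dist_le {b : ℝ} (hb0 : 0 ≤ b) (hb1 : b < 1) (n t : ℕ) :
    ∑ s ∈ Finset.range n, b ^ ((s - t) + (t - s)) ≤ 2 * (1 - b)⁻¹ := by
  classical
  rw [← Finset.sum_filter_add_sum_filter_not (Finset.range n) (fun s => t ≤ s)]
  have h1 : ∑ s ∈ (Finset.range n).filter (fun s => t ≤ s), b ^ ((s - t) + (t - s))
      ≤ (1 - b)⁻¹ := by
    apply sum_pow_le hb0 hb1
    intro s hs s' hs' h
    have h1 := (Finset.mem_filter.1 hs).2
    have h2 := (Finset.mem_filter.1 hs').2
    simp only at h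
    omega
  have h2 : ∑ s ∈ (Finset.range n).filter (fun s => ¬ t ≤ s), b ^ ((s - t) + (t - s))
      ≤ (1 - b)⁻¹ := by
    apply sum_pow_le hb0 hb1
    intro s hs s' hs' h
    have h1 := (Finset.mem_filter.1 hs).2
    have h2 := (Finset.mem_filter.1 hs').2
    simp only at h
    omega
  linarith

theorem exists_peak (a : ℕ → ℝ) (ha0 : ∀ t, 0 < a t) (ha1 : ∀ t, a t ≤ 1) {β : ℝ} (hβ : 1 < β)
    (s : ℕ) : ∃ t, (∀ u, a u ≤ a t * β ^ ((u - t) + (t - u))) ∧
      a s * β ^ ((s - t) + (t - s)) ≤ a t := by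
  classical
  have hβ0 : 0 < β := by linarith
  -- the weight
  set v : ℕ → ℝ := fun t => a t / β ^ ((s - t) + (t - s)) with hv
  have hvs : v s = a s := by simp [hv]
  obtain ⟨N, hN⟩ := pow_unbounded_of_one_lt (1 / a s) hβ
  obtain ⟨t, ht, hmax⟩ := Finset.exists_max_image (Finset.range (N + s + 1)) v
    ⟨s, Finset.mem_range.2 (by omega)⟩
  have hmax' : ∀ u, v u ≤ v t := by
    intro u
    by_cases hu : u < N + s + 1
    · exact hmax u (Finset.mem_range.2 hu)
    · push Not at hu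
      have h1 : v u ≤ v s := by
        rw [hvs]
        simp only [hv]
        rw [div_le_iff₀ (by positivity)]
        have h2 : β ^ N ≤ β ^ ((s - u) + (u - s)) := pow_le_pow_right₀ hβ.le (by omega)
        have h3 := ha0 s
        have h4 : 1 < β ^ N * a s := by rwa [div_lt_iff₀ h3] at hN
        have h5 := ha1 u
        nlinarith
      exact h1.trans (hmax s (Finset.mem_range.2 (by omega)))
  refine ⟨t, fun u => ?_, ?_⟩
  · have h1 := hmax' u
    simp only [hv] at h1
    rw [div_le_div_iff₀ (by positivity) (by positivity)] at h1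
    have h2 : β ^ ((s - u) + (u - s)) ≤ β ^ ((u - t) + (t - u)) * β ^ ((s - t) + (t - s)) := by
      rw [← pow_add]
      exact pow_le_pow_right₀ hβ.le (by omega)
    have h3 := ha0 t
    have h4 : 0 < β ^ ((s - t) + (t - s)) := by positivity
    have h5 : a u * β ^ ((s - t) + (t - s))
        ≤ a t * β ^ ((u - t) + (t - u)) * β ^ ((s - t) + (t - s)) := by
      calc a u * β ^ ((s - t) + (t - s)) ≤ a t * β ^ ((s - u) + (u - s)) := h1
        _ ≤ a t * (β ^ ((u - t) + (t - u)) * β ^ ((s - t) + (t - s))) := by gcongr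
        _ = _ := by ring
    exact le_of_mul_le_mul_right h5 h4
  · have h1 := hmax' s
    rw [hvs] at h1
    simp only [hv] at h1
    rwa [le_div_iff₀ (by positivity)] at h1

theorem exists_peaks (a : ℕ → ℝ) (ha0 : ∀ t, 0 < a t) (ha1 : ∀ t, a t ≤ 1)
    (hdiv : ¬ Summable a) {β : ℝ} (hβ : 1 < β) :
    ∃ P : Set ℕ, (∀ t ∈ P, ∀ s, a s ≤ a t * β ^ ((s - t) + (t - s))) ∧
      ∀ N, ∃ T : Finset ℕ, (∀ t ∈ T, t ∈ P ∧ N ≤ t) ∧ 1 ≤ ∑ t ∈ T, a t := by
  classical
  have hβ0 : 0 < β := by linarith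
  set P : Set ℕ := {t | ∀ s, a s ≤ a t * β ^ ((s - t) + (t - s))} with hP
  refine ⟨P, fun t ht => ht, fun N => ?_⟩
  by_contra hcon
  push Not at hcon
  apply hdiv
  set h : ℕ → ℝ := fun t => if t ∈ P then a t else 0 with hh
  have hh0 : ∀ t, 0 ≤ h t := fun t => by
    simp only [hh]; split_ifs
    · exact (ha0 t).le
    · exact le_rfl
  have hsum : Summable h := by
    rw [← summable_nat_add_iff N]
    apply summable_of_sum_range_le (c := 1) (fun t => hh0 _)
    intro n
    have h1 := hcon (((Finset.range n).image (fun i => i + N)).filter (fun t => t ∈ P))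
      (by
        intro t ht
        obtain ⟨h1, h2⟩ := Finset.mem_filter.1 ht
        obtain ⟨i, _, rfl⟩ := Finset.mem_image.1 h1
        exact ⟨h2, by omega⟩)
    rw [Finset.sum_filter, Finset.sum_image (by intro x _ y _ h; simp only at h; omega)] at h1
    exact h1.le
  choose g hg1 hg2 using exists_peak a ha0 ha1 hβ
  have hgP : ∀ s, g s ∈ P := fun s => hg1 s
  set b := β⁻¹ with hb
  have hb0 : 0 ≤ b := by positivity
  have hb1 : b < 1 := inv_lt_one_of_one_lt₀ hβ
  apply summable_of_sum_range_le (c := (∑' t, h t) * (2 * (1 - b)⁻¹)) (fun t => (ha0 t).le)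
  intro n
  obtain ⟨n', hn'⟩ : ∃ n', ∀ s ∈ Finset.range n, g s < n' := by
    refine ⟨(Finset.range n).sup g + 1, fun s hs => ?_⟩
    exact Nat.lt_succ_of_le (Finset.le_sup hs)
  calc ∑ s ∈ Finset.range n, a s
      ≤ ∑ s ∈ Finset.range n, h (g s) * b ^ ((s - g s) + (g s - s)) := by
        apply Finset.sum_le_sum
        intro s _
        have h1 := hg2 s
        simp only [hh]
        rw [if_pos (hgP s), hb, inv_pow, ← div_eq_mul_inv, le_div_iff₀ (by positivity)]
        exact h1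
    _ ≤ ∑ s ∈ Finset.range n, ∑ t ∈ Finset.range n', h t * b ^ ((s - t) + (t - s)) := by
        apply Finset.sum_le_sum
        intro s hs
        exact Finset.single_le_sum (f := fun t => h t * b ^ ((s - t) + (t - s)))
          (fun t _ => mul_nonneg (hh0 t) (by positivity)) (Finset.mem_range.2 (hn' s hs))
    _ = ∑ t ∈ Finset.range n', h t * ∑ s ∈ Finset.range n, b ^ ((s - t) + (t - s)) := by
        rw [Finset.sum_comm]
        exact Finset.sum_congr rfl fun t _ => by rw [Finset.mul_sum]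
    _ ≤ ∑ t ∈ Finset.range n', h t * (2 * (1 - b)⁻¹) := by
        apply Finset.sum_le_sum
        intro t _
        exact mul_le_mul_of_nonneg_left (sum_pow_dist_le hb0 hb1 n t) (hh0 t)
    _ = (∑ t ∈ Finset.range n', h t) * (2 * (1 - b)⁻¹) := by rw [Finset.sum_mul]
    _ ≤ (∑' t, h t) * (2 * (1 - b)⁻¹) := by
        have : 0 < 1 - b := by linarith
        gcongr
        exact hsum.sum_le_tsum _ fun t _ => hh0 t

end Pool.Agent.H639R3.K
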