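import Pool.Agent.H639R3.K.Peaks
import Pool.Agent.H639R3.K.Pair

/-!
The scales along the peaks.
-/

open MeasureTheory Set Metric

namespace Pool.Agent.H639R3.K

theorem exists_beta (m : ℕ) : ∃ β : ℝ, 1 < β ∧ β < 2 ∧ β ^ m < 2 := by
  set β : ℝ := (2 : ℝ) ^ (((m + 2 : ℕ) : ℝ)⁻¹) with hβ
  have h1 : β ^ (m + 2) = 2 := by
    rw [hβ]; exact Real.rpow_inv_natCast_pow (by norm_num) (by omega)
  have h2 : 1 < β := by
    rw [hβ]
    apply Real.one_lt_rpow (by norm_num)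
    positivity
  refine ⟨β, h2, ?_, ?_⟩
  · calc β = β ^ 1 := (pow_one β).symm
      _ < β ^ (m + 2) := pow_lt_pow_right₀ h2 (by omega)
      _ = 2 := h1
  · calc β ^ m < β ^ (m + 2) := pow_lt_pow_right₀ h2 (by omega)
      _ = 2 := h1

/-- the side of the Dirichlet boxes -/
noncomputable def sg (d m : ℕ) (ψ : ℕ → ℝ) (t : ℕ) : ℝ :=
  (C0 d m / (ψ (2 ^ t) ^ m * 2 ^ t)) ^ ((d : ℝ)⁻¹)

/-- the expected measure at level `t` -/
noncomputable def av (n : ℕ) (ψ : ℕ → ℝ) (t : ℕ) : ℝ := 2 ^ t * ψ (2 ^ t) ^ n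

theorem sg_pow {d : ℕ} (hd : 0 < d) (m : ℕ) {ψ : ℕ → ℝ} (hψ : ∀ k, 0 < ψ k) (t : ℕ) :
    sg d m ψ t ^ d = C0 d m / (ψ (2 ^ t) ^ m * 2 ^ t) := by
  have h1 := hψ (2 ^ t)
  have h2 := one_le_C0 d m
  unfold sg
  exact Real.rpow_inv_natCast_pow (by positivity) hd.ne'

theorem sg_pos {d : ℕ} (m : ℕ) {ψ : ℕ → ℝ} (hψ : ∀ k, 0 < ψ k) (t : ℕ) :
    0 < sg d m ψ t := by
  have h1 := hψ (2 ^ t)
  have h2 := one_le_C0 d m
  unfold sg
  positivity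

theorem par {d : ℕ} (hd : 0 < d) (m : ℕ) {ψ : ℕ → ℝ} (hψ : ∀ k, 0 < ψ k)
    (hale : ∀ t, av (d + m) ψ t ≤ 1) (t : ℕ) :
    Par d m ψ (2 ^ t) (sg d m ψ t) (av (d + m) ψ t) where
  σpos := sg_pos m hψ t
  σeq := by
    rw [sg_pow hd m hψ t]
    have := hψ (2 ^ t)
    push_cast
    field_simp
  aeq := by unfold av; push_cast; rfl
  ale := hale t
  apos := by
    have := hψ (2 ^ t)
    unfold av; positivity

variable {d m : ℕ} {ψ : ℕ → ℝ} {β : ℝ} {P : Set ℕ}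

theorem sg_tendsto (hd : 0 < d) (hψ : ∀ k, 0 < ψ k) (hβ1 : 1 < β) (hβm : β ^ m < 2)
    (hP : ∀ t ∈ P, ∀ s, av (d + m) ψ s ≤ av (d + m) ψ t * β ^ ((s - t) + (t - s)))
    {ε : ℝ} (hε : 0 < ε) : ∃ N, ∀ t, N ≤ t → t ∈ P → sg d m ψ t ≤ ε := by
  set a := av (d + m) ψ with ha
  have ha0 : 0 < a 0 := by
    have := hψ (2 ^ 0)
    simp only [ha, av]; positivity
  have hC := one_le_C0 d m
  set x := 2 ^ d / β ^ m with hx
  have hx1 : 1 < x := by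
    rw [hx, lt_div_iff₀ (by positivity), one_mul]
    calc β ^ m < 2 := hβm
      _ = 2 ^ 1 := (pow_one 2).symm
      _ ≤ 2 ^ d := pow_le_pow_right₀ one_le_two hd
  obtain ⟨N, hN⟩ := pow_unbounded_of_one_lt ((C0 d m / ε ^ d) ^ (d + m) / a 0 ^ m) hx1
  refine ⟨N, fun t ht htP => ?_⟩
  have hψt := hψ (2 ^ t)
  have hs := sg_pos (d := d) m hψ t
  have h1 : a 0 ≤ a t * β ^ t := by
    have := hP t htP 0
    simpa using this
  -- lower bound for the denominator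
  have h2 : (ψ (2 ^ t) ^ m * 2 ^ t) ^ (d + m) = a t ^ m * (2 ^ d) ^ t := by
    simp only [ha, av]
    rw [mul_pow, mul_pow, ← pow_mul, ← pow_mul, ← pow_mul, ← pow_mul, ← pow_mul]
    have e1 : t * (d + m) = t * m + d * t := by ring
    rw [e1, pow_add, mul_comm m (d + m)]
    ring
  have h3 : a 0 ^ m * x ^ t ≤ a t ^ m * (2 ^ d) ^ t := by
    have e1 : a 0 ^ m ≤ a t ^ m * (β ^ m) ^ t := by
      calc a 0 ^ m ≤ (a t * β ^ t) ^ m := pow_le_pow_left₀ ha0.le h1 m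
        _ = a t ^ m * (β ^ m) ^ t := by rw [mul_pow, ← pow_mul, ← pow_mul, mul_comm t m]
    calc a 0 ^ m * x ^ t ≤ a t ^ m * (β ^ m) ^ t * x ^ t := by gcongr
      _ = a t ^ m * (β ^ m * x) ^ t := by rw [mul_pow]; ring
      _ = a t ^ m * (2 ^ d) ^ t := by
          congr 2; rw [hx]; field_simp
  have h4 : (C0 d m / ε ^ d) ^ (d + m) ≤ (ψ (2 ^ t) ^ m * 2 ^ t) ^ (d + m) := by
    rw [h2]
    refine le_trans ?_ h3
    have e1 : (C0 d m / ε ^ d) ^ (d + m) / a 0 ^ m ≤ x ^ t :=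
      hN.le.trans (pow_le_pow_right₀ hx1.le ht)
    rw [div_le_iff₀ (by positivity)] at e1
    linarith
  have h5 : C0 d m / ε ^ d ≤ ψ (2 ^ t) ^ m * 2 ^ t :=
    (pow_le_pow_iff_left₀ (by positivity) (by positivity) (by omega)).1 h4
  have h6 : sg d m ψ t ^ d ≤ ε ^ d := by
    rw [sg_pow hd m hψ t, div_le_iff₀ (by positivity)]
    rw [div_le_iff₀ (by positivity)] at h5
    linarith
  exact (pow_le_pow_iff_left₀ hs.le hε.le hd.ne').1 h6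

theorem exists_ratio (hd : 0 < d) (hψ : ∀ k, 0 < ψ k) (hanti : Antitone ψ)
    (hβ1 : 1 < β) (hβ2 : β < 2)
    (hP : ∀ t ∈ P, ∀ s, av (d + m) ψ s ≤ av (d + m) ψ t * β ^ ((s - t) + (t - s))) :
    ∃ g : ℝ, 0 < g ∧ g < 1 ∧ ∀ t ∈ P, ∀ t', t ≤ t' →
      (ψ (2 ^ t') / ψ (2 ^ t)) ^ d ≤ g ^ (t' - t) := by
  set g : ℝ := (β / 2) ^ (((d + m : ℕ) : ℝ)⁻¹) with hg
  have hβ0 : 0 < β := by linarith
  have hgpow : g ^ (d + m) = β / 2 := by
    rw [hg]; exact Real.rpow_inv_natCast_pow (by positivity) (by omega)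
  have hg0 : 0 < g := by rw [hg]; positivity
  have hg1 : g < 1 := by
    rw [hg]
    apply Real.rpow_lt_one (by positivity) (by linarith)
    have : (0 : ℝ) < ((d + m : ℕ) : ℝ) := by exact_mod_cast (by omega : 0 < d + m)
    positivity
  refine ⟨g, hg0, hg1, fun t ht t' htt => ?_⟩
  have h0 := hψ (2 ^ t)
  have h0' := hψ (2 ^ t')
  have h1 := hP t ht t'
  have e1 : (t' - t) + (t - t') = t' - t := by omega
  rw [e1] at h1
  obtain ⟨l, rfl⟩ := Nat.exists_eq_add_of_le htt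
  have e2 : t + l - t = l := by omega
  rw [e2] at h1 ⊢
  unfold av at h1
  set ρ := ψ (2 ^ (t + l)) / ψ (2 ^ t) with hρ
  have hρ0 : 0 < ρ := by positivity
  have hρ1 : ρ ≤ 1 := by
    rw [hρ, div_le_one h0]
    exact hanti (Nat.pow_le_pow_right (by norm_num) (by omega))
  have h2 : ρ ^ (d + m) ≤ (g ^ l) ^ (d + m) := by
    rw [← pow_mul, mul_comm l, pow_mul, hgpow, hρ, div_pow, div_pow, div_le_div_iff₀
      (by positivity) (by positivity)]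
    rw [pow_add] at h1
    have e3 : (0 : ℝ) < 2 ^ t := by positivity
    have e4 : 2 ^ t * (ψ (2 ^ (t + l)) ^ (d + m) * 2 ^ l)
        ≤ 2 ^ t * (β ^ l * ψ (2 ^ t) ^ (d + m)) := by
      calc 2 ^ t * (ψ (2 ^ (t + l)) ^ (d + m) * 2 ^ l)
          = 2 ^ t * 2 ^ l * ψ (2 ^ (t + l)) ^ (d + m) := by ring
        _ ≤ 2 ^ t * ψ (2 ^ t) ^ (d + m) * β ^ l := h1
        _ = _ := by ring
    exact le_of_mul_le_mul_left e4 e3
  have h3 : ρ ≤ g ^ l := (pow_le_pow_iff_left₀ hρ0.le (by positivity) (by omega)).1 h2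
  calc ρ ^ d ≤ ρ ^ 1 := pow_le_pow_of_le_one hρ0.le hρ1 hd
    _ = ρ := pow_one ρ
    _ ≤ g ^ l := h3

end Pool.Agent.H639R3.K
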