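import Mathlib

/-!
A weighted second moment inequality, and a consequence of Lebesgue's density theorem.
-/

open MeasureTheory Set Metric

namespace Pool.Agent.H639R3.K

theorem weighted_second_moment {X : Type*} [MeasurableSpace X] (μ : Measure X) {ι : Type*}
    (I : Finset ι) (b : ι → Set X) (hb : ∀ i ∈ I, MeasurableSet (b i))
    (hfin : ∀ i ∈ I, μ (b i) ≠ ⊤) (κ : ι → ℝ) (lam : ℝ) :
    2 * lam * ∑ i ∈ I, κ i * μ.real (b i)
      - lam ^ 2 * ∑ i ∈ I, ∑ j ∈ I, κ i * κ j * μ.real (b i ∩ b j)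
      ≤ μ.real (⋃ i ∈ I, b i) := by
  classical
  set U : Set X := ⋃ i ∈ I, b i with hU
  have hUm : MeasurableSet U := Finset.measurableSet_biUnion _ hb
  have hUfin : μ U ≠ ⊤ := by
    refine ne_top_of_le_ne_top ?_ (measure_biUnion_finset_le _ _)
    exact ENNReal.sum_ne_top.2 hfin
  have hind : ∀ A : Set X, MeasurableSet A → μ A ≠ ⊤ →
      Integrable (A.indicator (1 : X → ℝ)) μ := by
    intro A hA hAf
    rw [integrable_indicator_iff hA]
    exact integrableOn_const hAf
  have hfin2 : ∀ i ∈ I, ∀ j, μ (b i ∩ b j) ≠ ⊤ := fun i hi j =>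
    ne_top_of_le_ne_top (hfin i hi) (measure_mono inter_subset_left)
  have i1 : Integrable (fun x => ∑ i ∈ I, κ i * (b i).indicator (1 : X → ℝ) x) μ :=
    integrable_finsetSum _ fun i hi => (hind _ (hb i hi) (hfin i hi)).const_mul _
  have i2 : Integrable (fun x => ∑ i ∈ I, ∑ j ∈ I,
      κ i * κ j * (b i ∩ b j).indicator (1 : X → ℝ) x) μ :=
    integrable_finsetSum _ fun i hi => integrable_finsetSum _ fun j hj =>
      (hind _ ((hb i hi).inter (hb j hj)) (hfin2 i hi j)).const_mul _
  have e1 : ∑ i ∈ I, κ i * μ.real (b i)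
      = ∫ x, ∑ i ∈ I, κ i * (b i).indicator (1 : X → ℝ) x ∂μ := by
    rw [integral_finsetSum _ fun i hi => (hind _ (hb i hi) (hfin i hi)).const_mul _]
    apply Finset.sum_congr rfl
    intro i hi
    rw [integral_const_mul, integral_indicator_one (hb i hi)]
  have e2 : ∑ i ∈ I, ∑ j ∈ I, κ i * κ j * μ.real (b i ∩ b j)
      = ∫ x, ∑ i ∈ I, ∑ j ∈ I, κ i * κ j * (b i ∩ b j).indicator (1 : X → ℝ) x ∂μ := by
    rw [integral_finsetSum _ fun i hi => integrable_finsetSum _ fun j hj =>
      (hind _ ((hb i hi).inter (hb j hj)) (hfin2 i hi j)).const_mul _]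
    apply Finset.sum_congr rfl
    intro i hi
    rw [integral_finsetSum _ fun j hj =>
      (hind _ ((hb i hi).inter (hb j hj)) (hfin2 i hi j)).const_mul _]
    apply Finset.sum_congr rfl
    intro j hj
    rw [integral_const_mul, integral_indicator_one ((hb i hi).inter (hb j hj))]
  rw [e1, e2, ← integral_const_mul, ← integral_const_mul, ← integral_sub
    (i1.const_mul _) (i2.const_mul _), ← integral_indicator_one hUm]
  apply integral_mono ((i1.const_mul _).sub (i2.const_mul _)) (hind U hUm hUfin)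
  intro x
  have h2 : ∑ i ∈ I, ∑ j ∈ I, κ i * κ j * (b i ∩ b j).indicator (1 : X → ℝ) x
      = (∑ i ∈ I, κ i * (b i).indicator (1 : X → ℝ) x) ^ 2 := by
    rw [sq, Finset.sum_mul_sum]
    refine Finset.sum_congr rfl fun i _ => Finset.sum_congr rfl fun j _ => ?_
    rw [Set.inter_indicator_one, Pi.mul_apply]
    ring
  show 2 * lam * ∑ i ∈ I, κ i * (b i).indicator (1 : X → ℝ) x
    - lam ^ 2 * ∑ i ∈ I, ∑ j ∈ I, κ i * κ j * (b i ∩ b j).indicator (1 : X → ℝ) x
    ≤ U.indicator (1 : X → ℝ) x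
  rw [h2]
  set f := ∑ i ∈ I, κ i * (b i).indicator (1 : X → ℝ) x with hf
  by_cases hx : x ∈ U
  · rw [indicator_of_mem hx, Pi.one_apply]
    nlinarith [sq_nonneg (1 - lam * f)]
  · have : f = 0 := by
      rw [hf]
      apply Finset.sum_eq_zero
      intro i hi
      rw [indicator_of_notMem, mul_zero]
      intro hxi
      apply hx
      simp only [hU, mem_iUnion, exists_prop]
      exact ⟨i, hi, hxi⟩
    rw [this, indicator_of_notMem hx]
    simp

/-- a set whose complement fills a fixed proportion of every ball is a null set -/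
theorem null_of_proportion {d : ℕ} (S : Set (Fin d → ℝ)) {η : ℝ} (hη : 0 < η)
    (h : ∀ (x0 : Fin d → ℝ) (r : ℝ), 0 < r → ∃ G : Set (Fin d → ℝ), MeasurableSet G ∧
      G ⊆ closedBall x0 (2 * r) ∧ (∀ x ∈ G, x ∉ S) ∧ η * (2 * r) ^ d ≤ volume.real G) :
    volume S = 0 := by
  have hball : ∀ (x0 : Fin d → ℝ) (ρ : ℝ), 0 < ρ →
      volume (S ∩ closedBall x0 ρ) / volume (closedBall x0 ρ)
        ≤ ENNReal.ofReal (1 - η / 2 ^ d) := by
    intro x0 ρ hρ
    obtain ⟨G, hGm, hGsub, hGW, hGvol⟩ := h x0 (ρ / 2) (by positivity)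
    have e1 : 2 * (ρ / 2) = ρ := by ring
    rw [e1] at hGsub hGvol
    have hfinball : volume (closedBall x0 ρ) ≠ ⊤ := by
      rw [Real.volume_pi_closedBall _ (by positivity)]; exact ENNReal.ofReal_ne_top
    have hsub : S ∩ closedBall x0 ρ ⊆ closedBall x0 ρ \ G := by
      rintro x ⟨hx1, hx2⟩
      exact ⟨hx2, fun hxG => hGW x hxG hx1⟩
    have hfinG : volume G ≠ ⊤ := ne_top_of_le_ne_top hfinball (measure_mono hGsub)
    have h1 : volume (S ∩ closedBall x0 ρ) ≤ ENNReal.ofReal ((2 * ρ) ^ d - η * ρ ^ d) := by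
      refine (measure_mono hsub).trans ?_
      rw [measure_sdiff hGsub hGm.nullMeasurableSet hfinG, Real.volume_pi_closedBall _ hρ.le,
        Fintype.card_fin, ENNReal.ofReal_sub _ (by positivity)]
      apply tsub_le_tsub_left
      exact ENNReal.ofReal_le_of_le_toReal hGvol
    have h2 : volume (closedBall x0 ρ) = ENNReal.ofReal ((2 * ρ) ^ d) := by
      rw [Real.volume_pi_closedBall _ hρ.le, Fintype.card_fin]
    rw [h2]
    apply ENNReal.div_le_of_le_mul
    refine h1.trans ?_
    rw [← ENNReal.ofReal_mul' (by positivity)]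
    apply ENNReal.ofReal_le_ofReal
    rw [sub_mul, one_mul, mul_pow]
    apply le_of_eq
    field_simp
  have hlim := Besicovitch.ae_tendsto_measure_inter_div (volume : Measure (Fin d → ℝ)) S
  have hfalse : ∀ᵐ x ∂(volume.restrict S), False := by
    filter_upwards [hlim] with x hx
    have h1 : ∀ᶠ r : ℝ in nhdsWithin 0 (Ioi 0),
        volume (S ∩ closedBall x r) / volume (closedBall x r)
          ≤ ENNReal.ofReal (1 - η / 2 ^ d) := by
      filter_upwards [self_mem_nhdsWithin] with r hr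
      exact hball x r hr
    have h2 := le_of_tendsto hx h1
    have h3 : ENNReal.ofReal (1 - η / 2 ^ d) < 1 := by
      rw [ENNReal.ofReal_lt_one]
      have : 0 < η / 2 ^ d := by positivity
      linarith
    exact absurd h3 (not_lt.2 h2)
  have h0 : volume.restrict S = 0 := by
    rw [Filter.eventually_false_iff_eq_bot, ae_eq_bot] at hfalse
    exact hfalse
  exact Measure.restrict_eq_zero.1 h0

end Pool.Agent.H639R3.K
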